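import Mathlib

/-!
# MP_a13a54_lc: algebras of subsets of `ℕ`, ultrafilters, additive functions, recursion
-/

namespace Pool.Agent.Lib.MP_a13a54_lc

open Set

/-- The algebra of sets generated by `S`. -/
inductive Gen (S : Set (Set ℕ)) : Set ℕ → Prop
  | basic {x : Set ℕ} : x ∈ S → Gen S x
  | bot : Gen S ∅
  | compl {x : Set ℕ} : Gen S x → Gen S xᶜ
  | inter {x y : Set ℕ} : Gen S x → Gen S y → Gen S (x ∩ y)

/-- The algebra of sets generated by `S`, as a Boolean subalgebra. -/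
def alg (S : Set (Set ℕ)) : BooleanSubalgebra (Set ℕ) where
  carrier := {x | Gen S x}
  supClosed' := by
    intro x hx y hy
    have h := Gen.compl (Gen.inter (Gen.compl hx) (Gen.compl hy))
    rw [← compl_union, compl_compl] at h
    exact h
  infClosed' := fun x hx y hy => Gen.inter hx hy
  compl_mem' := fun hx => Gen.compl hx
  bot_mem' := Gen.bot

theorem mem_alg {S : Set (Set ℕ)} {x : Set ℕ} : x ∈ alg S ↔ Gen S x := Iff.rfl

section

variable {C : BooleanSubalgebra (Set ℕ)} {a b : Set ℕ}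

theorem inter_mem' (ha : a ∈ C) (hb : b ∈ C) : a ∩ b ∈ C := BooleanSubalgebra.inf_mem ha hb

theorem union_mem' (ha : a ∈ C) (hb : b ∈ C) : a ∪ b ∈ C := BooleanSubalgebra.sup_mem ha hb

theorem compl_mem'' (ha : a ∈ C) : aᶜ ∈ C := BooleanSubalgebra.compl_mem ha

theorem diff_mem' (ha : a ∈ C) (hb : b ∈ C) : a \ b ∈ C := BooleanSubalgebra.sdiff_mem ha hb

theorem empty_mem' : (∅ : Set ℕ) ∈ C := BooleanSubalgebra.bot_mem

theorem univ_mem' : (univ : Set ℕ) ∈ C := BooleanSubalgebra.top_mem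

theorem biUnion_mem' {ι : Type*} (s : Finset ι) (c : ι → Set ℕ) (hc : ∀ i ∈ s, c i ∈ C) :
    (⋃ i ∈ s, c i) ∈ C := by
  classical
  induction s using Finset.induction_on with
  | empty => simpa using empty_mem'
  | insert i s _ ih =>
    rw [Finset.set_biUnion_insert]
    exact union_mem' (hc i (Finset.mem_insert_self _ _))
      (ih fun j hj => hc j (Finset.mem_insert_of_mem hj))

theorem biInter_mem' {ι : Type*} (s : Finset ι) (c : ι → Set ℕ) (hc : ∀ i ∈ s, c i ∈ C) :
    (⋂ i ∈ s, c i) ∈ C := by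
  classical
  induction s using Finset.induction_on with
  | empty => simpa using univ_mem'
  | insert i s _ ih =>
    rw [Finset.set_biInter_insert]
    exact inter_mem' (hc i (Finset.mem_insert_self _ _))
      (ih fun j hj => hc j (Finset.mem_insert_of_mem hj))

end

theorem subset_alg (S : Set (Set ℕ)) {x : Set ℕ} (hx : x ∈ S) : x ∈ alg S := Gen.basic hx

theorem alg_le {S : Set (Set ℕ)} {C : BooleanSubalgebra (Set ℕ)} (h : ∀ x ∈ S, x ∈ C) :
    ∀ x ∈ alg S, x ∈ C := by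
  intro x hx
  induction hx with
  | basic hx => exact h _ hx
  | bot => exact empty_mem'
  | compl _ ih => exact compl_mem'' ih
  | inter _ _ ih1 ih2 => exact inter_mem' ih1 ih2

theorem alg_mono {S T : Set (Set ℕ)} (h : S ⊆ T) : ∀ x ∈ alg S, x ∈ alg T :=
  alg_le fun _ hx => Gen.basic (h hx)

theorem alg_countable {S : Set (Set ℕ)} (hS : S.Countable) : (alg S : Set (Set ℕ)).Countable := by
  let L : ℕ → Set (Set ℕ) := fun n => Nat.rec (S ∪ {∅})
    (fun _ T => T ∪ ((fun x => xᶜ) '' T ∪ Set.image2 (fun x y => x ∩ y) T T)) n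
  have hL0 : L 0 = S ∪ {∅} := rfl
  have hL1 : ∀ n, L (n + 1) = L n ∪ ((fun x => xᶜ) '' L n ∪ Set.image2 (fun x y => x ∩ y) (L n) (L n)) :=
    fun n => rfl
  have hLc : ∀ n, (L n).Countable := by
    intro n
    induction n with
    | zero => rw [hL0]; exact hS.union (countable_singleton _)
    | succ n ih => rw [hL1]; exact ih.union ((ih.image _).union (ih.image2 ih _))
  have hLm : ∀ n m, n ≤ m → L n ⊆ L m := by
    intro n m h
    induction h with
    | refl => exact Subset.rfl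
    | step _ ih => exact ih.trans (by rw [Nat.succ_eq_add_one, hL1]; exact subset_union_left)
  refine (countable_iUnion hLc).mono ?_
  intro x hx
  rw [mem_iUnion]
  induction hx with
  | basic hx => exact ⟨0, Or.inl hx⟩
  | bot => exact ⟨0, Or.inr rfl⟩
  | compl _ ih =>
    obtain ⟨n, hn⟩ := ih
    exact ⟨n + 1, by rw [hL1]; exact Or.inr (Or.inl ⟨_, hn, rfl⟩)⟩
  | inter _ _ ih1 ih2 =>
    obtain ⟨n, hn⟩ := ih1
    obtain ⟨m, hm⟩ := ih2
    refine ⟨max n m + 1, ?_⟩
    rw [hL1]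
    exact Or.inr (Or.inr ⟨_, hLm _ _ (le_max_left _ _) hn, _, hLm _ _ (le_max_right _ _) hm, rfl⟩)

/-- `r` is an ultrafilter of the algebra `C`. -/
structure Ult (C : BooleanSubalgebra (Set ℕ)) (r : Set (Set ℕ)) : Prop where
  sub : ∀ a ∈ r, a ∈ C
  inter : ∀ a ∈ r, ∀ b ∈ r, a ∩ b ∈ r
  dec : ∀ a ∈ C, a ∈ r ∨ aᶜ ∈ r
  ne : ∅ ∉ r

namespace Ult

variable {C : BooleanSubalgebra (Set ℕ)} {r : Set (Set ℕ)} (hr : Ult C r)

include hr

theorem compl_iff {a : Set ℕ} (ha : a ∈ C) : aᶜ ∈ r ↔ a ∉ r := by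
  constructor
  · intro h h'
    have := hr.inter a h' _ h
    rw [inter_compl_self] at this
    exact hr.ne this
  · intro h
    exact (hr.dec a ha).resolve_left h

theorem univ : (Set.univ : Set ℕ) ∈ r := by
  rcases hr.dec ∅ empty_mem' with h | h
  · exact absurd h hr.ne
  · rwa [compl_empty] at h

theorem up {a b : Set ℕ} (ha : a ∈ r) (hb : b ∈ C) (hab : a ⊆ b) : b ∈ r := by
  by_contra h
  have h2 := hr.inter a ha _ ((hr.compl_iff hb).2 h)
  rw [← sdiff_eq, sdiff_eq_empty.2 hab] at h2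
  exact hr.ne h2

theorem biInter {ι : Type*} (s : Finset ι) (c : ι → Set ℕ) (hc : ∀ i ∈ s, c i ∈ r) :
    (⋂ i ∈ s, c i) ∈ r := by
  classical
  induction s using Finset.induction_on with
  | empty => simpa using hr.univ
  | insert i s _ ih =>
    rw [Finset.set_biInter_insert]
    exact hr.inter _ (hc i (Finset.mem_insert_self _ _)) _
      (ih fun j hj => hc j (Finset.mem_insert_of_mem hj))

end Ult

/-- An ultrafilter of `C` disjoint from an ideal. -/
theorem exists_ult (C : BooleanSubalgebra (Set ℕ)) (I : Set (Set ℕ)) (h0 : Set.univ ∉ I)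
    (hd : ∀ a ∈ C, ∀ b ∈ I, a ⊆ b → a ∈ I) (hu : ∀ a ∈ I, ∀ b ∈ I, a ∪ b ∈ I)
    (hIC : ∀ a ∈ I, a ∈ C) : ∃ r, Ult C r ∧ ∀ a ∈ r, a ∉ I := by
  rcases I.eq_empty_or_nonempty with hI | ⟨a0, ha0⟩
  · refine ⟨{a | a ∈ C ∧ 0 ∈ a}, ⟨fun a h => h.1, fun a h b h' => ⟨inter_mem' h.1 h'.1, h.2, h'.2⟩,
      fun a ha => ?_, fun h => h.2⟩, fun a _ => by rw [hI]; exact notMem_empty _⟩
    by_cases h : 0 ∈ a
    · exact Or.inl ⟨ha, h⟩
    · exact Or.inr ⟨compl_mem'' ha, h⟩
  · let f : Filter ℕ :=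
      { sets := {s | ∃ a ∈ I, aᶜ ⊆ s}
        univ_sets := ⟨a0, ha0, subset_univ _⟩
        sets_of_superset := fun {x y} ⟨a, ha, h⟩ hxy => ⟨a, ha, h.trans hxy⟩
        inter_sets := by
          rintro x y ⟨a, ha, h⟩ ⟨b, hb, h'⟩
          refine ⟨a ∪ b, hu a ha b hb, ?_⟩
          rw [compl_union]
          exact inter_subset_inter h h' }
    have hf : f.NeBot := by
      refine ⟨fun h => ?_⟩
      have h2 : (∅ : Set ℕ) ∈ f := by rw [h]; exact Filter.mem_bot
      obtain ⟨a, ha, h3⟩ := h2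
      have h4 : a = Set.univ := by
        rw [← compl_empty_iff]
        exact subset_empty_iff.1 h3
      rw [h4] at ha
      exact h0 ha
    let U := Ultrafilter.of f
    refine ⟨{a | a ∈ C ∧ a ∈ U}, ⟨fun a h => h.1, fun a h b h' => ⟨inter_mem' h.1 h'.1,
      Filter.inter_mem h.2 h'.2⟩, fun a ha => ?_, fun h => ?_⟩, fun a h h' => ?_⟩
    · rcases Ultrafilter.mem_or_compl_mem U a with h | h
      · exact Or.inl ⟨ha, h⟩
      · exact Or.inr ⟨compl_mem'' ha, h⟩
    · exact Ultrafilter.empty_notMem h.2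
    · have h2 : aᶜ ∈ U := Ultrafilter.of_le f ⟨a, h', Subset.rfl⟩
      exact Ultrafilter.compl_mem_iff_notMem.1 h2 h.2

/-- `μ` is additive on `C`. -/
def AddOn (C : BooleanSubalgebra (Set ℕ)) (μ : Set ℕ → ℝ) : Prop :=
  ∀ a ∈ C, ∀ b ∈ C, Disjoint a b → μ (a ∪ b) = μ a + μ b

namespace AddOn

variable {C : BooleanSubalgebra (Set ℕ)} {μ : Set ℕ → ℝ} (h : AddOn C μ)

include h

theorem empty : μ ∅ = 0 := by
  have := h ∅ empty_mem' ∅ empty_mem' (disjoint_bot_left)
  rw [union_self] at this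
  linarith

theorem split {a b : Set ℕ} (ha : a ∈ C) (hb : b ∈ C) : μ a = μ (a ∩ b) + μ (a \ b) := by
  rw [← h _ (inter_mem' ha hb) _ (diff_mem' ha hb) disjoint_inf_sdiff, inter_union_sdiff]

theorem sum {ι : Type*} (s : Finset ι) (c : ι → Set ℕ) (hc : ∀ i ∈ s, c i ∈ C)
    (hd : ∀ i ∈ s, ∀ j ∈ s, i ≠ j → Disjoint (c i) (c j)) :
    μ (⋃ i ∈ s, c i) = ∑ i ∈ s, μ (c i) := by
  classical
  induction s using Finset.induction_on with
  | empty => simpa using h.empty
  | insert i s hi ih =>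
    rw [Finset.set_biUnion_insert, Finset.sum_insert hi, h _ (hc i (Finset.mem_insert_self _ _)) _
      (biUnion_mem' s c fun j hj => hc j (Finset.mem_insert_of_mem hj)),
      ih (fun j hj => hc j (Finset.mem_insert_of_mem hj))
        (fun j hj k hk => hd j (Finset.mem_insert_of_mem hj) k (Finset.mem_insert_of_mem hk))]
    rw [Set.disjoint_iUnion₂_right]
    intro j hj
    exact hd i (Finset.mem_insert_self _ _) j (Finset.mem_insert_of_mem hj) fun e =>
      hi (e ▸ hj)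

/-- Many disjoint sets with large values contradict boundedness. -/
theorem card_le {ι : Type*} (s : Finset ι) (c : ι → Set ℕ) (hc : ∀ i ∈ s, c i ∈ C)
    (hd : ∀ i ∈ s, ∀ j ∈ s, i ≠ j → Disjoint (c i) (c j)) {B : ℝ}
    (hB : ∀ a ∈ C, |μ a| ≤ B) : ∑ i ∈ s, |μ (c i)| ≤ 2 * B := by
  classical
  have h1 : ∑ i ∈ s with 0 ≤ μ (c i), |μ (c i)| ≤ B := by
    have := hB _ (biUnion_mem' (s.filter fun i => 0 ≤ μ (c i)) c fun i hi =>
      hc i (Finset.mem_filter.1 hi).1)
    rw [h.sum _ c (fun i hi => hc i (Finset.mem_filter.1 hi).1)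
      (fun i hi j hj => hd i (Finset.mem_filter.1 hi).1 j (Finset.mem_filter.1 hj).1)] at this
    refine le_trans (le_of_eq ?_) ((le_abs_self _).trans this)
    exact Finset.sum_congr rfl fun i hi => abs_of_nonneg (Finset.mem_filter.1 hi).2
  have h2 : ∑ i ∈ s with ¬ 0 ≤ μ (c i), |μ (c i)| ≤ B := by
    have := hB _ (biUnion_mem' (s.filter fun i => ¬ 0 ≤ μ (c i)) c fun i hi =>
      hc i (Finset.mem_filter.1 hi).1)
    rw [h.sum _ c (fun i hi => hc i (Finset.mem_filter.1 hi).1)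
      (fun i hi j hj => hd i (Finset.mem_filter.1 hi).1 j (Finset.mem_filter.1 hj).1)] at this
    refine le_trans (le_of_eq ?_) ((neg_le_abs _).trans this)
    rw [← Finset.sum_neg_distrib]
    exact Finset.sum_congr rfl fun i hi => abs_of_neg (not_le.1 (Finset.mem_filter.1 hi).2)
  rw [← Finset.sum_filter_add_sum_filter_not s (fun i => 0 ≤ μ (c i))]
  linarith

end AddOn

/-- Recursion with choice along a well order. -/
theorem wf_rec {Ω α : Type*} [LinearOrder Ω] [WellFoundedLT Ω] [Inhabited α]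
    (P : Ω → (Ω → α) → α → Prop) (hP : ∀ k h, ∃ a, P k h a)
    (hc : ∀ k h h' a, (∀ j < k, h j = h' j) → P k h a → P k h' a) :
    ∃ c : Ω → α, ∀ k, P k c (c k) := by
  classical
  let G : (k : Ω) → ((j : Ω) → j < k → α) → α := fun k h =>
    (hP k fun j => if hj : j < k then h j hj else default).choose
  let c : Ω → α := (wellFounded_lt (α := Ω)).fix G
  refine ⟨c, fun k => ?_⟩
  have h1 : c k = G k fun j _ => c j := WellFounded.fix_eq _ _ _
  refine hc k (fun j => if hj : j < k then c j else default) c (c k) (fun j hj => ?_) ?_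
  · simp only [hj, dif_pos]
  · rw [h1]
    exact (hP k fun j => if hj : j < k then c j else default).choose_spec

end Pool.Agent.Lib.MP_a13a54_lc
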