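import Pool.Agent.Lib.MP_a13a54_lc.Nik

/-!
# MP_a13a54_lc: the construction under CH
-/

namespace Pool.Agent.Lib.MP_a13a54_lc

open Set Cardinal

/-- The bookkeeping. -/
theorem chain (hCH : (𝔠 : Cardinal.{0}) = ℵ_ 1) (S : Set (Set ℕ)) :
    ∃ (Ω : Type) (_ : LinearOrder Ω) (_ : WellFoundedLT Ω), (∀ a : Ω, (Iio a).Countable) ∧
      ¬ (univ : Set Ω).Countable ∧ ∃ τ : Ω → ℕ → ℕ → ℝ, (∀ t, ¬ {ξ | τ ξ = t}.Countable) ∧
      ∃ x : Ω → Set ℕ, (∀ γ, ∀ y ∈ GG τ (Ag S x γ), y ∈ Aw S x) ∧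
        ∀ α, x α = ∅ ∨ ∃ γ ≤ α, x α ∈ GG τ (Ag S x γ) := by
  classical
  obtain ⟨O, iO, wO, hΩ, hc⟩ : ∃ (O : Type) (_ : LinearOrder O) (_ : WellFoundedLT O),
      #O = ℵ_ 1 ∧ ∀ a : O, (Iio a).Countable := by
    refine ⟨(ℵ_ 1 : Cardinal.{0}).ord.ToType, inferInstance, inferInstance, mk_ord_toType _,
      fun a => ?_⟩
    have h1 : #(Iio a) < #(ℵ_ 1 : Cardinal.{0}).ord.ToType := mk_Iio_lt a (by simp)
    rw [mk_ord_toType] at h1
    have h2 := h1.trans_eq succ_aleph0.symm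
    exact Cardinal.le_aleph0_iff_set_countable.1 (Order.lt_succ_iff.1 h2)
  have hu : ∀ s : Set O, Cardinal.mk s = ℵ_ 1 → ¬ s.Countable := by
    intro s hs h
    rw [← Cardinal.le_aleph0_iff_set_countable, hs] at h
    exact absurd h (not_le.2 aleph0_lt_aleph_one)
  have hsq : ℵ_ 1 * ℵ_ 1 = ℵ_ 1 := Cardinal.mul_eq_self (aleph0_le_aleph 1)
  -- the tasks
  have hT : #((ℕ → ℕ → ℝ) × O) = ℵ_ 1 := by
    rw [Cardinal.mk_prod, lift_id, lift_id, hΩ]
    have : #(ℕ → ℕ → ℝ) = ℵ_ 1 := by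
      rw [← hCH]
      simp only [← Cardinal.power_def, mk_real, mk_nat, continuum_power_aleph0]
    rw [this, hsq]
  obtain ⟨q⟩ : Nonempty (O ≃ (ℕ → ℕ → ℝ) × O) :=
    Cardinal.eq.1 (hΩ.trans hT.symm)
  have hT2 : #(O × (Set ℕ × O)) = ℵ_ 1 := by
    rw [Cardinal.mk_prod, Cardinal.mk_prod, lift_id, lift_id, lift_id, hΩ]
    have : #(Set ℕ) = ℵ_ 1 := by
      rw [← hCH]
      simp
    rw [this, hsq, hsq]
  obtain ⟨p⟩ : Nonempty (O ≃ O × (Set ℕ × O)) :=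
    Cardinal.eq.1 (hΩ.trans hT2.symm)
  have hun : ¬ (univ : Set O).Countable := hu _ (by rw [mk_univ, hΩ])
  refine ⟨O, iO, wO, hc, hun, fun ξ => (q ξ).1, ?_, ?_⟩
  · intro t h
    refine hun (Set.Countable.mono ?_ (h.image fun ξ => (q ξ).2))
    intro η _
    exact ⟨q.symm (t, η), by simp, by simp⟩
  · set τ : O → ℕ → ℕ → ℝ := fun ξ => (q ξ).1 with hτ
    obtain ⟨x, hx⟩ := wf_rec (Ω := O) (α := Set ℕ)
      (fun α h a => a = if (p α).1 ≤ α ∧ (p α).2.1 ∈ GG τ (Ag S h (p α).1) then (p α).2.1 else ∅)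
      (fun α h => ⟨_, rfl⟩)
      (by
        intro α h h' a hh ha
        by_cases hle : (p α).1 ≤ α
        · have : Ag S h (p α).1 = Ag S h' (p α).1 := by
            unfold Ag
            congr 2
            refine image_congr fun β hβ => hh β (lt_of_lt_of_le hβ hle)
          rw [this] at ha
          exact ha
        · rw [ha, if_neg (fun h => hle h.1), if_neg (fun h => hle h.1)])
    refine ⟨x, ?_, ?_⟩
    · intro γ y hy
      obtain ⟨α, hα, hα2⟩ : ∃ α, γ ≤ α ∧ (p α).1 = γ ∧ (p α).2.1 = y := by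
        by_contra h
        push Not at h
        refine hun (Set.Countable.mono ?_ ((hc γ).image fun α => (p α).2.2))
        intro η _
        refine ⟨p.symm (γ, (y, η)), ?_, by simp⟩
        by_contra h1
        exact h _ (not_lt.1 h1) (by simp) (by simp)
      refine subset_alg _ (Or.inr ⟨α, ?_⟩)
      rw [hx α, if_pos, hα2.2]
      rw [hα2.1, hα2.2]
      exact ⟨hα, hy⟩
    · intro α
      have h := hx α
      by_cases h1 : (p α).1 ≤ α ∧ (p α).2.1 ∈ GG τ (Ag S x (p α).1)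
      · rw [if_pos h1] at h
        exact Or.inr ⟨(p α).1, h1.1, by rw [h]; exact h1.2⟩
      · rw [if_neg h1] at h
        exact Or.inl h

end Pool.Agent.Lib.MP_a13a54_lc
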