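import Pool.Agent.Lib.MP_a13a54_lc.Base

/-!
# MP_a13a54_lc: a probability of uncountable type from an uncountable independent family
-/

namespace Pool.Agent.Lib.MP_a13a54_lc

open Set Filter Topology

theorem card_half {α : Type*} [DecidableEq α] (S : Finset α) (a b : α) (ha : a ∈ S) (hab : a ≠ b) :
    (S.powerset.filter fun σ => ¬ (a ∈ σ ↔ b ∈ σ)).card * 2 = 2 ^ S.card := by
  have h1 : (S.powerset.filter fun σ => ¬ (a ∈ σ ↔ b ∈ σ)).card =
      (S.powerset.filter fun σ => ¬ ¬ (a ∈ σ ↔ b ∈ σ)).card := by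
    refine Finset.card_nbij' (fun σ => if a ∈ σ then σ.erase a else insert a σ)
      (fun σ => if a ∈ σ then σ.erase a else insert a σ) ?_ ?_ ?_ ?_
    · intro σ hσ
      rw [Finset.coe_filter, mem_ofPred_eq, Finset.mem_powerset] at hσ
      rw [Finset.coe_filter, mem_ofPred_eq, Finset.mem_powerset]
      by_cases h : a ∈ σ
      · simp only [h, if_true]
        refine ⟨(Finset.erase_subset _ _).trans hσ.1, ?_⟩
        simp only [Finset.mem_erase, ne_eq, not_true, false_and, hab.symm, not_false_iff, true_and]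
        have := hσ.2
        tauto
      · simp only [h, if_false]
        refine ⟨Finset.insert_subset ha hσ.1, ?_⟩
        simp only [Finset.mem_insert, hab.symm, true_or, false_or]
        have := hσ.2
        tauto
    · intro σ hσ
      rw [Finset.coe_filter, mem_ofPred_eq, Finset.mem_powerset] at hσ
      rw [Finset.coe_filter, mem_ofPred_eq, Finset.mem_powerset]
      by_cases h : a ∈ σ
      · simp only [h, if_true]
        refine ⟨(Finset.erase_subset _ _).trans hσ.1, ?_⟩
        simp only [Finset.mem_erase, ne_eq, not_true, false_and, hab.symm, not_false_iff, true_and]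
        have := hσ.2
        tauto
      · simp only [h, if_false]
        refine ⟨Finset.insert_subset ha hσ.1, ?_⟩
        simp only [Finset.mem_insert, hab.symm, true_or, false_or]
        have := hσ.2
        tauto
    · intro σ _
      by_cases h : a ∈ σ
      · simp [h, Finset.insert_erase]
      · simp [h]
    · intro σ _
      by_cases h : a ∈ σ
      · simp [h, Finset.insert_erase]
      · simp [h]
  have h2 := Finset.card_filter_add_card_filter_not (s := S.powerset)
    (fun σ => ¬ (a ∈ σ ↔ b ∈ σ))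
  rw [Finset.card_powerset] at h2
  omega

/-- A finitely additive probability for which the elements of an independent family have mutual
distance `1 / 2`. -/
theorem exists_lam (F : Set (Set ℕ))
    (hF : ∀ s t : Finset (Set ℕ), (s : Set (Set ℕ)) ⊆ F → (t : Set (Set ℕ)) ⊆ F → Disjoint s t →
      ((⋂ a ∈ s, a) ∩ ⋂ b ∈ t, bᶜ).Nonempty) :
    ∃ lam : Set ℕ → ℝ, (∀ a b, Disjoint a b → lam (a ∪ b) = lam a + lam b) ∧ (∀ a, 0 ≤ lam a) ∧
      lam univ = 1 ∧ ∀ a ∈ F, ∀ b ∈ F, a ≠ b → lam ((a \ b) ∪ (b \ a)) = 1 / 2 := by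
  classical
  -- the points
  have hpt : ∀ (S σ : Finset (Set ℕ)), ∃ z : ℕ, (S : Set (Set ℕ)) ⊆ F → σ ⊆ S →
      (∀ a ∈ σ, z ∈ a) ∧ ∀ a ∈ S, a ∉ σ → z ∉ a := by
    intro S σ
    by_cases h : (S : Set (Set ℕ)) ⊆ F ∧ σ ⊆ S
    · obtain ⟨z, hz1, hz2⟩ := hF σ (S \ σ) ((Finset.coe_subset.2 h.2).trans h.1)
        ((Finset.coe_subset.2 Finset.sdiff_subset).trans h.1) Finset.disjoint_sdiff
      refine ⟨z, fun _ _ => ⟨fun a ha => mem_iInter₂.1 hz1 a ha, fun a ha ha' => ?_⟩⟩
      exact mem_iInter₂.1 hz2 a (Finset.mem_sdiff.2 ⟨ha, ha'⟩)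
    · exact ⟨0, fun h1 h2 => absurd ⟨h1, h2⟩ h⟩
  choose z hz using hpt
  -- the finite measures
  let l : Finset (Set ℕ) → Set ℕ → ℝ := fun S a =>
    (∑ σ ∈ S.powerset, a.indicator (fun _ => (1 : ℝ)) (z S σ)) / 2 ^ S.card
  have hl0 : ∀ S a, 0 ≤ l S a := fun S a =>
    div_nonneg (Finset.sum_nonneg fun σ _ => indicator_nonneg (fun _ _ => zero_le_one) _)
      (by positivity)
  have hladd : ∀ S a b, Disjoint a b → l S (a ∪ b) = l S a + l S b := by
    intro S a b hab
    simp only [l]
    rw [← add_div, ← Finset.sum_add_distrib]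
    congr 1
    refine Finset.sum_congr rfl fun σ _ => ?_
    rw [indicator_union_of_disjoint hab]
  have hluniv : ∀ S, l S univ = 1 := by
    intro S
    simp only [l, indicator_univ, Finset.sum_const, Finset.card_powerset, nsmul_eq_mul, mul_one]
    push_cast
    exact div_self (by positivity)
  have hl1 : ∀ S a, l S a ≤ 1 := by
    intro S a
    have h1 := hladd S a aᶜ disjoint_compl_right
    rw [union_compl_self, hluniv] at h1
    linarith [hl0 S aᶜ]
  have hhalf : ∀ S : Finset (Set ℕ), (S : Set (Set ℕ)) ⊆ F → ∀ a ∈ S, ∀ b ∈ S, a ≠ b →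
      l S ((a \ b) ∪ (b \ a)) = 1 / 2 := by
    intro S hS a ha b hb hab
    have e : ∑ σ ∈ S.powerset, ((a \ b) ∪ (b \ a)).indicator (fun _ => (1 : ℝ)) (z S σ) =
        ∑ σ ∈ S.powerset, if ¬ (a ∈ σ ↔ b ∈ σ) then (1 : ℝ) else 0 := by
      refine Finset.sum_congr rfl fun σ hσ => ?_
      have h1 := hz S σ hS (Finset.mem_powerset.1 hσ)
      have ha' : z S σ ∈ a ↔ a ∈ σ := by
        constructor
        · intro h
          by_contra h2
          exact h1.2 a ha h2 h
        · exact h1.1 a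
      have hb' : z S σ ∈ b ↔ b ∈ σ := by
        constructor
        · intro h
          by_contra h2
          exact h1.2 b hb h2 h
        · exact h1.1 b
      have hiff : z S σ ∈ (a \ b) ∪ (b \ a) ↔ ¬ (a ∈ σ ↔ b ∈ σ) := by
        simp only [mem_union, Set.mem_sdiff, ha', hb']
        tauto
      by_cases h : ¬ (a ∈ σ ↔ b ∈ σ)
      · rw [indicator_of_mem (hiff.2 h), if_pos h]
      · rw [indicator_of_notMem (fun h' => h (hiff.1 h')), if_neg h]
    simp only [l]
    rw [e, Finset.sum_boole]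
    have h2 := card_half S a b ha hab
    have h3 : ((S.powerset.filter fun σ => ¬ (a ∈ σ ↔ b ∈ σ)).card : ℝ) * 2 = 2 ^ S.card := by
      exact_mod_cast h2
    rw [← h3]
    have h4 : ((S.powerset.filter fun σ => ¬ (a ∈ σ ↔ b ∈ σ)).card : ℝ) ≠ 0 := by
      intro h
      rw [h, zero_mul] at h3
      have h5 : (0 : ℝ) < 2 ^ S.card := by positivity
      exact absurd h3 h5.ne
    field_simp
  -- the limit
  let J := Finset F
  let toF : J → Finset (Set ℕ) := fun S => S.map ⟨Subtype.val, Subtype.val_injective⟩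
  have htoF : ∀ S : J, (toF S : Set (Set ℕ)) ⊆ F := by
    intro S s hs
    obtain ⟨t, _, rfl⟩ := Finset.mem_map.1 hs
    exact t.2
  let W : Ultrafilter J := Ultrafilter.of (atTop : Filter J)
  have hW : ∀ a, ∃ y : ℝ, Tendsto (fun S : J => l (toF S) a) W (𝓝 y) := by
    intro a
    obtain ⟨y, _, hy⟩ := (isCompact_Icc (a := (0 : ℝ)) (b := 1)).ultrafilter_le_nhds
      (W.map fun S : J => l (toF S) a) (by
        rw [Filter.le_principal_iff]
        have h1 : (fun S : J => l (toF S) a) ⁻¹' Icc (0 : ℝ) 1 ∈ (W : Filter J) :=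
          Filter.univ_mem' fun S => ⟨hl0 (toF S) a, hl1 (toF S) a⟩
        exact h1)
    exact ⟨y, hy⟩
  choose lam hlam using hW
  refine ⟨lam, fun a b hab => ?_, fun a => ?_, ?_, fun a ha b hb hab => ?_⟩
  · refine tendsto_nhds_unique (hlam (a ∪ b)) (((hlam a).add (hlam b)).congr fun S => ?_)
    exact (hladd _ a b hab).symm
  · exact ge_of_tendsto' (hlam a) fun S => hl0 _ _
  · refine tendsto_nhds_unique (hlam univ) (tendsto_const_nhds.congr fun S => ?_)
    exact (hluniv _).symm
  · refine tendsto_nhds_unique (hlam _) (tendsto_const_nhds.congr' ?_)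
    have hle : (W : Filter J) ≤ atTop := Ultrafilter.of_le _
    refine hle ?_
    refine mem_of_superset (mem_atTop ({⟨a, ha⟩, ⟨b, hb⟩} : Finset F)) fun S hS => ?_
    have h1 : a ∈ toF S := Finset.mem_map.2 ⟨⟨a, ha⟩, hS (by simp), rfl⟩
    have h2 : b ∈ toF S := Finset.mem_map.2 ⟨⟨b, hb⟩, hS (by simp), rfl⟩
    exact (hhalf _ (htoF S) a h1 b h2 hab).symm

end Pool.Agent.Lib.MP_a13a54_lc
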