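import Pool.Agent.Lib.MP_a13a54_lc.Tree

/-!
# MP_a13a54_lc: the Nikodym property
-/

namespace Pool.Agent.Lib.MP_a13a54_lc

open Set

open scoped Classical in
/-- A map to `ℕ`, injective on `C` if `C` is countable. -/
noncomputable def idx (C : Set (Set ℕ)) : Set ℕ → ℕ :=
  if h : ∃ g : Set ℕ → ℕ, InjOn g C then h.choose else fun _ => 0

theorem idx_injOn {C : Set (Set ℕ)} (hC : C.Countable) : InjOn (idx C) C := by
  have h : ∃ g : Set ℕ → ℕ, InjOn g C := Set.countable_iff_exists_injOn.1 hC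
  unfold idx
  rw [dif_pos h]
  exact h.choose_spec

variable {Ω : Type} [LinearOrder Ω] [WellFoundedLT Ω]

/-- The task number `ξ` for the algebra `C`. -/
noncomputable def tsk (τ : Ω → ℕ → ℕ → ℝ) (C : BooleanSubalgebra (Set ℕ)) (ξ : Ω) (n : ℕ)
    (c : Set ℕ) : ℝ := τ ξ n (idx (C : Set (Set ℕ)) c)

/-- All splitting elements over `C`. -/
def GG (τ : Ω → ℕ → ℕ → ℝ) (C : BooleanSubalgebra (Set ℕ)) : Set (Set ℕ) :=
  {y | ∃ r, Ult C r ∧ ∃ (f : Ω → Option Bool) (ξ : Ω) (b : Bool), y = ev (cc C r (tsk τ C) f ξ) b}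

/-- The algebra of the stage `γ`. -/
def Ag (S : Set (Set ℕ)) (x : Ω → Set ℕ) (γ : Ω) : BooleanSubalgebra (Set ℕ) :=
  alg (S ∪ x '' Iio γ)

/-- The whole algebra. -/
def Aw (S : Set (Set ℕ)) (x : Ω → Set ℕ) : BooleanSubalgebra (Set ℕ) := alg (S ∪ range x)

omit [WellFoundedLT Ω] in
theorem Ag_le (S : Set (Set ℕ)) (x : Ω → Set ℕ) (γ : Ω) : ∀ a ∈ Ag S x γ, a ∈ Aw S x :=
  alg_mono (union_subset_union_right _ (image_subset_range _ _))

omit [WellFoundedLT Ω] in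
theorem Ag_mono (S : Set (Set ℕ)) (x : Ω → Set ℕ) {γ δ : Ω} (h : γ ≤ δ) :
    ∀ a ∈ Ag S x γ, a ∈ Ag S x δ :=
  alg_mono (union_subset_union_right _ (image_mono (Iio_subset_Iio h)))

omit [WellFoundedLT Ω] in
theorem Ag_countable {S : Set (Set ℕ)} (hS : S.Countable) (hc : ∀ a : Ω, (Iio a).Countable)
    (x : Ω → Set ℕ) (γ : Ω) : ((Ag S x γ : BooleanSubalgebra (Set ℕ)) : Set (Set ℕ)).Countable :=
  alg_countable (hS.union ((hc γ).image x))

omit [WellFoundedLT Ω] in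
theorem exists_bound (hc : ∀ a : Ω, (Iio a).Countable) (hu : ¬ (univ : Set Ω).Countable)
    (s : Set Ω) (hs : s.Countable) : ∃ γ, ∀ α ∈ s, α < γ := by
  by_contra h
  push Not at h
  refine hu ?_
  have h1 : (univ : Set Ω) ⊆ ⋃ α ∈ s, Iic α := by
    intro γ _
    obtain ⟨α, hα, h2⟩ := h γ
    exact mem_biUnion hα h2
  refine Set.Countable.mono h1 (hs.biUnion fun α _ => ?_)
  rw [← Iio_insert]
  exact (hc α).insert α

omit [WellFoundedLT Ω] in
theorem exists_stage (hc : ∀ a : Ω, (Iio a).Countable) (hu : ¬ (univ : Set Ω).Countable)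
    (S : Set (Set ℕ)) (x : Ω → Set ℕ) : ∀ a ∈ Aw S x, ∃ γ, a ∈ Ag S x γ := by
  have hne : ∃ γ : Ω, True := by
    obtain ⟨γ, _⟩ := exists_bound hc hu ∅ countable_empty
    exact ⟨γ, trivial⟩
  obtain ⟨γ0, _⟩ := hne
  intro a ha
  induction ha with
  | basic hx =>
    rcases hx with hx | ⟨α, rfl⟩
    · exact ⟨γ0, Gen.basic (Or.inl hx)⟩
    · obtain ⟨γ, hγ⟩ := exists_bound hc hu {α} (countable_singleton α)
      exact ⟨γ, Gen.basic (Or.inr ⟨α, hγ α rfl, rfl⟩)⟩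
  | bot => exact ⟨γ0, Gen.bot⟩
  | compl _ ih =>
    obtain ⟨γ, hγ⟩ := ih
    exact ⟨γ, Gen.compl hγ⟩
  | inter _ _ ih1 ih2 =>
    obtain ⟨γ, hγ⟩ := ih1
    obtain ⟨δ, hδ⟩ := ih2
    exact ⟨max γ δ, Gen.inter (Ag_mono S x (le_max_left _ _) _ hγ)
      (Ag_mono S x (le_max_right _ _) _ hδ)⟩

/-- An ultrafilter near which the sequence is unbounded. -/
theorem exists_U {C : BooleanSubalgebra (Set ℕ)} {m : ℕ → Set ℕ → ℝ} (hm : ∀ n, AddOn C (m n))
    (hp : ∀ c ∈ C, ∃ M, ∀ n, |m n c| ≤ M) (hu : ∀ M : ℝ, ∃ n, ∃ c ∈ C, M ≤ |m n c|) :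
    ∃ r, Ult C r ∧ U C r r m := by
  obtain ⟨r, hr, hrI⟩ := exists_ult C
    {a | a ∈ C ∧ ∃ M : ℝ, ∀ n, ∀ c ∈ C, c ⊆ a → |m n c| ≤ M}
    (by
      rintro ⟨_, M, hM⟩
      obtain ⟨n, c, hc, h⟩ := hu (M + 1)
      linarith [hM n c hc (subset_univ _)])
    (by
      rintro a ha b ⟨_, M, hM⟩ hab
      exact ⟨ha, M, fun n c hc h => hM n c hc (h.trans hab)⟩)
    (by
      rintro a ⟨ha, M, hM⟩ b ⟨hb, M', hM'⟩
      refine ⟨union_mem' ha hb, M + M', fun n c hc h => ?_⟩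
      rw [(hm n).split hc ha]
      refine (abs_add_le _ _).trans (add_le_add (hM n _ (inter_mem' hc ha) inter_subset_right)
        (hM' n _ (diff_mem' hc ha) ?_))
      rw [sdiff_subset_iff]
      exact h)
    (fun a ha => ha.1)
  refine ⟨r, hr, fun G hG M => ?_⟩
  have hb : (⋂ i ∈ G, i) ∈ r := hr.biInter G (fun i => i) fun i hi => hG hi
  set b := ⋂ i ∈ G, i with hbdef
  have hbC := hr.sub b hb
  obtain ⟨M', hM'⟩ := hp b hbC
  have h1 : ¬ ∃ M : ℝ, ∀ n, ∀ c ∈ C, c ⊆ b → |m n c| ≤ M := fun h => hrI b hb ⟨hbC, h⟩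
  push Not at h1
  obtain ⟨n, c, hc, hcb, hM⟩ := h1 (|M| + M')
  have hsub : ∀ d, d ⊆ b → ∀ i ∈ G, d ⊆ i := by
    intro d hd i hi
    exact hd.trans (biInter_subset_of_mem (by exact hi))
  have hM0 : 0 ≤ M' := (abs_nonneg _).trans (hM' 0)
  by_cases hcr : c ∈ r
  · refine ⟨n, b \ c, diff_mem' hbC hc, fun h => ?_, hsub _ sdiff_subset, ?_⟩
    · have := hr.inter _ h _ hcr
      rw [sdiff_inter_self] at this
      exact hr.ne this
    · have e := (hm n).split hbC hc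
      rw [inter_eq_right.2 hcb] at e
      have h2 := hM' n
      have h3 : m n (b \ c) = m n b - m n c := by linarith
      rw [h3]
      have h4 := abs_sub_abs_le_abs_sub (m n c) (m n b)
      rw [abs_sub_comm] at h4
      linarith [le_abs_self M]
  · exact ⟨n, c, hc, hcr, hsub _ hcb, by linarith [le_abs_self M]⟩

section

variable (C : BooleanSubalgebra (Set ℕ)) (r : Set (Set ℕ)) (T : Ω → ℕ → Set ℕ → ℝ)
  (f : Ω → Option Bool)

/-- The tail of a splitting element. -/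
def tl (c : ℕ → Set ℕ) (b : Bool) (m : ℕ) : Set ℕ := ⋃ k ∈ par b ∩ Ici m, c k

omit [LinearOrder Ω] [WellFoundedLT Ω] in
theorem tl_sub (c : ℕ → Set ℕ) (b : Bool) (m : ℕ) : tl c b m ⊆ ev c b :=
  biUnion_subset_biUnion_left inter_subset_left

omit [LinearOrder Ω] [WellFoundedLT Ω] in
theorem tl_anti (c : ℕ → Set ℕ) (b : Bool) {m m' : ℕ} (h : m ≤ m') : tl c b m' ⊆ tl c b m :=
  biUnion_subset_biUnion_left (inter_subset_inter_right _ (Ici_subset_Ici.2 h))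

/-- The sides of later elements are disjoint from an earlier element which is off the branch. -/
theorem tail_disj {ξ η : Ω} (h : ξ < η) {b b' : Bool} (hb : some b ≠ f ξ) :
    ∃ m, Disjoint (ev (cc C r T f ξ) b) (tl (cc C r T f η) b' m) := by
  obtain ⟨N, hN⟩ := (cc_cv C r T f η).conv _ (side_FF C r T f h)
  refine ⟨N, (side_disj (cc_cv C r T f ξ) (some b) (f ξ) hb).mono_right ?_⟩
  refine iUnion₂_subset fun k hk => hN k hk.2

end

open scoped Classical in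
/-- **The Nikodym property** of the algebra. -/
theorem nik {S : Set (Set ℕ)} (hS : S.Countable) (hc : ∀ a : Ω, (Iio a).Countable)
    (hu : ¬ (univ : Set Ω).Countable) (x : Ω → Set ℕ) (τ : Ω → ℕ → ℕ → ℝ)
    (hτ : ∀ t, ¬ {ξ | τ ξ = t}.Countable) (hG : ∀ γ, ∀ y ∈ GG τ (Ag S x γ), y ∈ Aw S x)
    (μ : ℕ → Set ℕ → ℝ) (hμ : ∀ n, AddOn (Aw S x) (μ n))
    (hb : ∀ n, ∃ B, ∀ a ∈ Aw S x, |μ n a| ≤ B) (hp : ∀ a ∈ Aw S x, ∃ M, ∀ n, |μ n a| ≤ M) :
    ∃ M : ℝ, ∀ n, ∀ a ∈ Aw S x, |μ n a| ≤ M := by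
  by_contra hcon
  push Not at hcon
  -- the stage `γ`
  choose nn aa haa hbig using fun k : ℕ => hcon k
  choose g hg using fun k => exists_stage hc hu S x (aa k) (haa k)
  obtain ⟨γ, hγ⟩ := exists_bound hc hu (range g) (countable_range g)
  set C := Ag S x γ with hCdef
  have haC : ∀ k, aa k ∈ C := fun k => Ag_mono S x (hγ _ (mem_range_self k)).le _ (hg k)
  have hCA := Ag_le S x γ
  have hCc := Ag_countable hS hc x γ
  have hm : ∀ n, AddOn C (μ n) := fun n a ha b hb' => hμ n a (hCA a ha) b (hCA b hb')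
  obtain ⟨r, hr, hU⟩ := exists_U hm (fun c hc' => hp c (hCA c hc')) (fun M => by
    obtain ⟨k, hk⟩ := exists_nat_ge M
    exact ⟨nn k, aa k, haC k, hk.trans (hbig k).le⟩)
  have hrc : r.Countable := hCc.mono hr.sub
  -- the task
  obtain ⟨t, ht⟩ : ∃ t : ℕ → ℕ → ℝ, ∀ n, ∀ c ∈ C, t n (idx (C : Set (Set ℕ)) c) = μ n c := by
    refine ⟨fun n j => μ n (Function.invFunOn (idx (C : Set (Set ℕ))) (C : Set (Set ℕ)) j),
      fun n c hc' => ?_⟩
    show μ n (Function.invFunOn (idx (C : Set (Set ℕ))) (C : Set (Set ℕ))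
      (idx (C : Set (Set ℕ)) c)) = μ n c
    rw [(idx_injOn hCc).leftInvOn_invFunOn hc']
  set T := tsk τ C with hT
  obtain ⟨f, hf⟩ := exists_branch C r T hr hm hU
  -- the elements `d ξ`
  let bb : Ω → Bool := fun ξ => if f ξ = some true then false else true
  have hbb : ∀ ξ, some (bb ξ) ≠ f ξ := by
    intro ξ
    by_cases h : f ξ = some true
    · simp [bb, h]
    · simp only [bb, h, if_false]
      exact fun e => h e.symm
  let d : Ω → Set ℕ := fun ξ => ev (cc C r T f ξ) (bb ξ)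
  have hdA : ∀ ξ, d ξ ∈ Aw S x := fun ξ => hG γ _ ⟨r, hr, f, ξ, bb ξ, rfl⟩
  have hTask : ∀ ξ, τ ξ = t → Unb (μ) (cc C r T f ξ) := by
    intro ξ hξ
    have e : ∀ n, ∀ c ∈ C, T ξ n c = μ n c := by
      intro n c hc'
      rw [hT, tsk, hξ, ht n c hc']
    have h1 : Unb (T ξ) (cc C r T f ξ) := by
      rw [cc_eq]
      apply pick_unb
      refine exists_sel hr (sub_FF C r T f ξ) (FF_countable C r T f hrc hc ξ) ?_ ?_ ?_
        (U_congr (fun n c hc' => (e n c hc').symm) (hf ξ))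
      · intro n a ha b hb' hab
        rw [e n _ ha, e n _ hb', e n _ (union_mem' ha hb')]
        exact hm n a ha b hb' hab
      · intro n
        obtain ⟨B, hB⟩ := hb n
        exact ⟨B, fun c hc' => by rw [e n c hc']; exact hB c (hCA c hc')⟩
      · intro c hc'
        obtain ⟨M, hM⟩ := hp c (hCA c hc')
        exact ⟨M, fun n => by rw [e n c hc']; exact hM n⟩
    intro I hI M
    obtain ⟨n, N, hN⟩ := h1 I hI M
    refine ⟨n, N, fun N' hN' => ?_⟩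
    have h2 := hN N' hN'
    have h3 : ∑ k ∈ (Finset.range N').filter (· ∈ I), T ξ n (cc C r T f ξ k) =
        ∑ k ∈ (Finset.range N').filter (· ∈ I), μ n (cc C r T f ξ k) :=
      Finset.sum_congr rfl fun k _ => e n _ ((cc_cv C r T f ξ).mem k)
    rwa [h3] at h2
  -- the bad sets
  have hbad : ∀ (n j : ℕ), {ξ | ∀ m, ∃ y ∈ Aw S x, y ⊆ tl (cc C r T f ξ) (bb ξ) m ∧
      1 / ((j : ℝ) + 1) < |μ n y|}.Finite := by
    intro n j
    by_contra hinf
    obtain ⟨B, hB⟩ := hb n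
    obtain ⟨p, hpB⟩ := exists_nat_gt (2 * B * ((j : ℝ) + 1))
    obtain ⟨s, hs, hcard⟩ := (Set.not_finite.1 hinf).exists_subset_card_eq p
    -- a common tail
    have hpair : ∀ ξ ∈ s, ∀ η ∈ s, ξ ≠ η → ∃ m, Disjoint (tl (cc C r T f ξ) (bb ξ) m)
        (tl (cc C r T f η) (bb η) m) := by
      intro ξ _ η _ hne
      rcases lt_or_gt_of_ne hne with h | h
      · obtain ⟨m, hm'⟩ := tail_disj C r T f h (b' := bb η) (hbb ξ)
        exact ⟨m, hm'.mono_left (tl_sub _ _ _)⟩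
      · obtain ⟨m, hm'⟩ := tail_disj C r T f h (b' := bb ξ) (hbb η)
        exact ⟨m, (hm'.mono_left (tl_sub _ _ _)).symm⟩
    have hpair' : ∀ q : Ω × Ω, ∃ m, q.1 ∈ s → q.2 ∈ s → q.1 ≠ q.2 →
        Disjoint (tl (cc C r T f q.1) (bb q.1) m) (tl (cc C r T f q.2) (bb q.2) m) := by
      intro q
      by_cases h : q.1 ∈ s ∧ q.2 ∈ s ∧ q.1 ≠ q.2
      · obtain ⟨m, hm'⟩ := hpair q.1 h.1 q.2 h.2.1 h.2.2
        exact ⟨m, fun _ _ _ => hm'⟩
      · exact ⟨0, fun h1 h2 h3 => absurd ⟨h1, h2, h3⟩ h⟩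
    choose mm hmm using hpair'
    let m0 := (s ×ˢ s).sup mm
    have hdisj : ∀ ξ ∈ s, ∀ η ∈ s, ξ ≠ η → Disjoint (tl (cc C r T f ξ) (bb ξ) m0)
        (tl (cc C r T f η) (bb η) m0) := by
      intro ξ hξ η hη hne
      have hle : mm (ξ, η) ≤ m0 := Finset.le_sup (Finset.mem_product.2 ⟨hξ, hη⟩)
      exact (hmm (ξ, η) hξ hη hne).mono (tl_anti _ _ hle) (tl_anti _ _ hle)
    choose! y hyA hyt hyb using fun ξ (hξ : ξ ∈ s) => hs hξ m0
    have h1 := (hμ n).card_le s y hyA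
      (fun ξ hξ η hη hne => (hdisj ξ hξ η hη hne).mono (hyt ξ hξ) (hyt η hη)) hB
    have h2 : (p : ℝ) * (1 / ((j : ℝ) + 1)) ≤ ∑ i ∈ s, |μ n (y i)| := by
      rw [← hcard, ← nsmul_eq_mul]
      exact Finset.card_nsmul_le_sum _ _ _ fun i hi => (hyb i hi).le
    have h3 : (0 : ℝ) < (j : ℝ) + 1 := by positivity
    have h4 : (p : ℝ) * (1 / ((j : ℝ) + 1)) ≤ 2 * B := h2.trans h1
    rw [mul_one_div, div_le_iff₀ h3] at h4
    linarith
  -- a good `ξ`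
  obtain ⟨ξ, hξt, hξg⟩ : ∃ ξ, τ ξ = t ∧ ∀ n j : ℕ, ∃ m, ∀ y ∈ Aw S x,
      y ⊆ tl (cc C r T f ξ) (bb ξ) m → |μ n y| ≤ 1 / ((j : ℝ) + 1) := by
    by_contra h
    push Not at h
    refine hτ t (Set.Countable.mono ?_ (countable_iUnion fun n =>
      countable_iUnion fun j => (hbad n j).countable))
    intro ξ hξ
    obtain ⟨n, j, h1⟩ := h ξ hξ
    exact mem_iUnion.2 ⟨n, mem_iUnion.2 ⟨j, h1⟩⟩
  obtain ⟨M, hM⟩ := hp (d ξ) (hdA ξ)
  obtain ⟨n, N, hN⟩ := hTask ξ hξt (par (bb ξ)) (par_infinite _) (M + 2)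
  obtain ⟨m, hm'⟩ := hξg n 0
  have h1 := hN (max N m) (le_max_left _ _)
  set c := cc C r T f ξ with hcdef
  set N' := max N m with hN'
  have hcC : ∀ k, c k ∈ Aw S x := fun k => hCA _ ((cc_cv C r T f ξ).mem k)
  set I := (Finset.range N').filter (· ∈ par (bb ξ)) with hI
  have e1 : d ξ ∩ (⋃ k ∈ I, c k) = ⋃ k ∈ I, c k := by
    apply inter_eq_right.2
    refine iUnion₂_subset fun k hk => ?_
    exact subset_biUnion_of_mem (u := fun k => c k) (Finset.mem_filter.1 hk).2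
  have e2 : d ξ \ (⋃ k ∈ I, c k) ⊆ tl c (bb ξ) m := by
    rintro z ⟨hz, hz'⟩
    obtain ⟨k, hk, hzk⟩ := mem_iUnion₂.1 hz
    refine mem_iUnion₂.2 ⟨k, ⟨hk, ?_⟩, hzk⟩
    by_contra hkm
    refine hz' (mem_iUnion₂.2 ⟨k, ?_, hzk⟩)
    rw [hI, Finset.mem_filter, Finset.mem_range]
    exact ⟨lt_of_lt_of_le (not_le.1 hkm) (le_max_right _ _), hk⟩
  have hIA : (⋃ k ∈ I, c k) ∈ Aw S x := biUnion_mem' I c fun k _ => hcC k
  have h2 := (hμ n).split (hdA ξ) hIA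
  rw [e1, (hμ n).sum I c (fun k _ => hcC k)
    (fun i _ j _ hij => (cc_cv C r T f ξ).disj i j hij)] at h2
  have h3 := hm' _ (diff_mem' (hdA ξ) hIA) e2
  have h4 := hM n
  norm_num at h3
  have h5 : |∑ k ∈ I, μ n (c k)| ≤ |μ n (d ξ)| + |μ n (d ξ \ ⋃ k ∈ I, c k)| := by
    have : ∑ k ∈ I, μ n (c k) = μ n (d ξ) - μ n (d ξ \ ⋃ k ∈ I, c k) := by linarith
    rw [this]
    exact abs_sub _ _
  linarith

end Pool.Agent.Lib.MP_a13a54_lc
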