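import Pool.Agent.Lib.MP_a13a54_lc.Base

/-!
# MP_a13a54_lc: the selection lemma
-/

namespace Pool.Agent.Lib.MP_a13a54_lc

open Set

/-- The sequence `m` is unbounded near `F` on the elements of `C` which are not in `r`. -/
def U (C : BooleanSubalgebra (Set ℕ)) (r F : Set (Set ℕ)) (m : ℕ → Set ℕ → ℝ) : Prop :=
  ∀ G : Finset (Set ℕ), (G : Set (Set ℕ)) ⊆ F → ∀ M : ℝ,
    ∃ n, ∃ c ∈ C, c ∉ r ∧ (∀ b ∈ G, c ⊆ b) ∧ M ≤ |m n c|

/-- `c` is a disjoint sequence in `C` converging to `F`. -/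
structure Cv (C : BooleanSubalgebra (Set ℕ)) (F : Set (Set ℕ)) (c : ℕ → Set ℕ) : Prop where
  mem : ∀ k, c k ∈ C
  disj : ∀ j k, j ≠ k → Disjoint (c j) (c k)
  conv : ∀ b ∈ F, ∃ N, ∀ k ≥ N, c k ⊆ b

open scoped Classical in
/-- The partial sums over every infinite set of indices are unbounded. -/
def Unb (m : ℕ → Set ℕ → ℝ) (c : ℕ → Set ℕ) : Prop :=
  ∀ I : Set ℕ, I.Infinite → ∀ M : ℝ, ∃ n N, ∀ N' ≥ N,
    M ≤ |∑ k ∈ (Finset.range N').filter (· ∈ I), m n (c k)|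

theorem U_congr {C : BooleanSubalgebra (Set ℕ)} {r F : Set (Set ℕ)} {m m' : ℕ → Set ℕ → ℝ}
    (h : ∀ n, ∀ c ∈ C, m n c = m' n c) (hU : U C r F m) : U C r F m' := by
  intro G hG M
  obtain ⟨n, c, hc, h1, h2, h3⟩ := hU G hG M
  exact ⟨n, c, hc, h1, h2, by rw [← h n c hc]; exact h3⟩

open scoped Classical in
/-- **Selection lemma.** -/
theorem exists_sel {C : BooleanSubalgebra (Set ℕ)} {r F : Set (Set ℕ)} {m : ℕ → Set ℕ → ℝ}
    (hr : Ult C r) (hrF : r ⊆ F) (hF : F.Countable) (hm : ∀ n, AddOn C (m n))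
    (hb : ∀ n, ∃ B, ∀ c ∈ C, |m n c| ≤ B) (hp : ∀ c ∈ C, ∃ M, ∀ n, |m n c| ≤ M)
    (hU : U C r F m) : ∃ c, Cv C F c ∧ Unb m c := by
  obtain ⟨g, hg⟩ := hF.exists_eq_range ⟨_, hrF hr.univ⟩
  have hp' : ∀ c : Set ℕ, ∃ M : ℝ, c ∈ C → 0 ≤ M ∧ ∀ n, |m n c| ≤ M := by
    intro c
    by_cases hc : c ∈ C
    · obtain ⟨M, hM⟩ := hp c hc
      exact ⟨M, fun _ => ⟨(abs_nonneg _).trans (hM 0), hM⟩⟩
    · exact ⟨0, fun h => absurd h hc⟩
  choose Mf hMf using hp'
  choose B hB using hb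
  -- the raw sequence
  obtain ⟨p, hp1⟩ := wf_rec (Ω := ℕ) (α := Set ℕ × ℕ)
    (fun k h a => (∀ j < k, (h j).1 ∈ C ∧ (h j).1 ∉ r) →
      a.1 ∈ C ∧ a.1 ∉ r ∧ (∀ i ≤ k, a.1 ⊆ g i) ∧ (∀ j < k, Disjoint a.1 (h j).1) ∧
        (k : ℝ) + ∑ j ∈ Finset.range k, Mf (h j).1 ≤ |m a.2 a.1|)
    (by
      intro k h
      by_cases hh : ∀ j < k, (h j).1 ∈ C ∧ (h j).1 ∉ r
      · obtain ⟨n, c, hc, hcr, hcG, hM⟩ := hU
          ((Finset.range (k + 1)).image g ∪ (Finset.range k).image fun j => (h j).1ᶜ) (by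
            intro s hs
            rw [Finset.mem_coe, Finset.mem_union, Finset.mem_image, Finset.mem_image] at hs
            rcases hs with ⟨i, _, rfl⟩ | ⟨j, hj, rfl⟩
            · rw [hg]; exact mem_range_self i
            · have := hh j (Finset.mem_range.1 hj)
              exact hrF ((hr.compl_iff this.1).2 this.2))
          ((k : ℝ) + ∑ j ∈ Finset.range k, Mf (h j).1)
        refine ⟨(c, n), fun _ => ⟨hc, hcr, fun i hi => hcG _ ?_, fun j hj => ?_, hM⟩⟩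
        · exact Finset.mem_union_left _ (Finset.mem_image_of_mem _
            (Finset.mem_range.2 (Nat.lt_succ_of_le hi)))
        · rw [← subset_compl_iff_disjoint_right]
          exact hcG _ (Finset.mem_union_right _ (Finset.mem_image.2
            ⟨j, Finset.mem_range.2 hj, rfl⟩))
      · exact ⟨(∅, 0), fun h' => absurd h' hh⟩)
    (by
      intro k h h' a hhh hP hh
      have hP' := hP (fun j hj => by rw [hhh j hj]; exact hh j hj)
      refine ⟨hP'.1, hP'.2.1, hP'.2.2.1, fun j hj => ?_, ?_⟩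
      · rw [← hhh j hj]; exact hP'.2.2.2.1 j hj
      · have e : ∑ j ∈ Finset.range k, Mf (h j).1 = ∑ j ∈ Finset.range k, Mf (h' j).1 :=
          Finset.sum_congr rfl fun j hj => by rw [hhh j (Finset.mem_range.1 hj)]
        rw [← e]
        exact hP'.2.2.2.2)
  have hpC : ∀ k, (p k).1 ∈ C ∧ (p k).1 ∉ r := by
    intro k
    induction k using Nat.strong_induction_on with
    | _ k ih => exact ⟨(hp1 k ih).1, (hp1 k ih).2.1⟩
  have hp2 := fun k => hp1 k fun j _ => hpC j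
  have hdis : ∀ j k, j ≠ k → Disjoint (p j).1 (p k).1 := by
    intro j k hjk
    rcases lt_or_gt_of_ne hjk with h | h
    · exact ((hp2 k).2.2.2.1 j h).symm
    · exact (hp2 j).2.2.2.1 k h
  -- tails
  have htail : ∀ k, ∃ K, k < K ∧ ∀ N, ∑ j ∈ Finset.Ico K N, |m (p k).2 (p j).1| ≤ 1 := by
    intro k
    have hs : Summable fun j => |m (p k).2 (p j).1| := by
      refine summable_of_sum_range_le (c := 2 * B (p k).2) (fun _ => abs_nonneg _) fun n => ?_
      exact (hm (p k).2).card_le (Finset.range n) (fun j => (p j).1) (fun j _ => (hpC j).1)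
        (fun i _ j _ hij => hdis i j hij) (hB (p k).2)
    obtain ⟨K, hK⟩ := Metric.cauchySeq_iff.1 hs.hasSum.tendsto_sum_nat.cauchySeq 1 one_pos
    refine ⟨max K (k + 1), lt_of_lt_of_le (Nat.lt_succ_self k) (le_max_right _ _), fun N => ?_⟩
    rcases le_or_gt (max K (k + 1)) N with hN | hN
    · have h1 := hK N (le_trans (le_max_left _ _) hN) (max K (k + 1)) (le_max_left _ _)
      rw [Real.dist_eq, ← Finset.sum_Ico_eq_sub _ hN] at h1
      exact (le_abs_self _).trans h1.le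
    · rw [Finset.Ico_eq_empty (not_lt.2 hN.le)]
      simp
  choose K hK1 hK2 using htail
  let φ : ℕ → ℕ := fun i => Nat.rec 0 (fun _ x => K x) i
  have hφ1 : ∀ i, φ (i + 1) = K (φ i) := fun _ => rfl
  have hφ : StrictMono φ := strictMono_nat_of_lt_succ fun i => by rw [hφ1]; exact hK1 _
  refine ⟨fun i => (p (φ i)).1, ⟨fun i => (hpC _).1, fun j k hjk => hdis _ _
    (fun e => hjk (hφ.injective e)), fun b hb' => ?_⟩, ?_⟩
  · rw [hg] at hb'
    obtain ⟨i, rfl⟩ := hb'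
    exact ⟨i, fun k hk => (hp2 (φ k)).2.2.1 i (hk.trans (hφ.le_apply))⟩
  · intro I hI M
    obtain ⟨i, hiI, hi⟩ := hI.exists_gt ⌈M + 1⌉₊
    refine ⟨(p (φ i)).2, i + 1, fun N' hN' => ?_⟩
    have hMi : M + 1 ≤ i := (Nat.le_ceil _).trans (by exact_mod_cast hi.le)
    set n := (p (φ i)).2 with hn
    have hbig := (hp2 (φ i)).2.2.2.2
    rw [← hn] at hbig
    -- split the sum
    have hsplit : ∑ k ∈ (Finset.range N').filter (· ∈ I), m n (p (φ k)).1 =
        ∑ k ∈ (Finset.range i).filter (· ∈ I), m n (p (φ k)).1 + (m n (p (φ i)).1 +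
          ∑ k ∈ (Finset.Ico (i + 1) N').filter (· ∈ I), m n (p (φ k)).1) := by
      simp only [Finset.sum_filter]
      rw [← Finset.sum_range_add_sum_Ico _ hN', Finset.sum_range_succ, if_pos hiI, add_assoc]
    have h1 : |∑ k ∈ (Finset.range i).filter (· ∈ I), m n (p (φ k)).1| ≤
        ∑ j ∈ Finset.range (φ i), Mf (p j).1 := by
      refine (Finset.abs_sum_le_sum_abs _ _).trans ?_
      refine (Finset.sum_le_sum fun k _ => (hMf _ (hpC (φ k)).1).2 n).trans ?_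
      have h3 : ∑ k ∈ (Finset.range i).filter (· ∈ I), Mf (p (φ k)).1 =
          ∑ j ∈ ((Finset.range i).filter (· ∈ I)).image φ, Mf (p j).1 :=
        (Finset.sum_image (f := fun j => Mf (p j).1) fun a _ b _ h => hφ.injective h).symm
      rw [h3]
      refine Finset.sum_le_sum_of_subset_of_nonneg ?_ fun j _ _ => (hMf _ (hpC j).1).1
      intro j hj
      obtain ⟨k, hk, rfl⟩ := Finset.mem_image.1 hj
      exact Finset.mem_range.2 (hφ (Finset.mem_range.1 (Finset.mem_filter.1 hk).1))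
    have h2 : |∑ k ∈ (Finset.Ico (i + 1) N').filter (· ∈ I), m n (p (φ k)).1| ≤ 1 := by
      refine (Finset.abs_sum_le_sum_abs _ _).trans ?_
      refine le_trans ?_ (hK2 (φ i) (φ N'))
      have h3 : ∑ k ∈ (Finset.Ico (i + 1) N').filter (· ∈ I), |m n (p (φ k)).1| =
          ∑ j ∈ ((Finset.Ico (i + 1) N').filter (· ∈ I)).image φ, |m n (p j).1| :=
        (Finset.sum_image (f := fun j => |m n (p j).1|) fun a _ b _ h => hφ.injective h).symm
      rw [h3]
      refine Finset.sum_le_sum_of_subset_of_nonneg ?_ fun j _ _ => abs_nonneg _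
      intro j hj
      obtain ⟨k, hk, rfl⟩ := Finset.mem_image.1 hj
      have hk' := Finset.mem_Ico.1 (Finset.mem_filter.1 hk).1
      refine Finset.mem_Ico.2 ⟨?_, hφ hk'.2⟩
      rw [← hφ1]
      exact hφ.monotone hk'.1
    have h4 : (i : ℝ) ≤ (Nat.cast (φ i) : ℝ) := Nat.cast_le.2 hφ.le_apply
    show M ≤ |∑ k ∈ (Finset.range N').filter (· ∈ I), m n (p (φ k)).1|
    rw [hsplit]
    rcases abs_cases (∑ k ∈ (Finset.range i).filter (· ∈ I), m n (p (φ k)).1) with ⟨e1, _⟩ | ⟨e1, _⟩ <;>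
    rcases abs_cases (∑ k ∈ (Finset.Ico (i + 1) N').filter (· ∈ I), m n (p (φ k)).1)
      with ⟨e2, _⟩ | ⟨e2, _⟩ <;>
    rcases abs_cases (m n (p (φ i)).1) with ⟨e3, _⟩ | ⟨e3, _⟩ <;>
    rcases abs_cases (∑ k ∈ (Finset.range i).filter (· ∈ I), m n (p (φ k)).1 +
      (m n (p (φ i)).1 + ∑ k ∈ (Finset.Ico (i + 1) N').filter (· ∈ I), m n (p (φ k)).1))
      with ⟨e4, _⟩ | ⟨e4, _⟩ <;>
    rw [e4] <;> linarith

end Pool.Agent.Lib.MP_a13a54_lc
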