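import Pool.Agent.Lib.MP_a13a54_lc.Sel

/-!
# MP_a13a54_lc: the trees of splitting elements
-/

namespace Pool.Agent.Lib.MP_a13a54_lc

open Set

/-- The numbers `k` with the parity `b`. -/
def par (b : Bool) : Set ℕ := {k | k % 2 = b.toNat}

theorem par_infinite (b : Bool) : (par b).Infinite := by
  refine Set.infinite_of_injective_forall_mem (f := fun k => 2 * k + b.toNat)
    (fun x y h => ?_) fun k => ?_
  · simp only at h
    omega
  · cases b <;> simp [par, Nat.add_mod]

/-- The union of the `c k` over the `k` with the parity `b`. -/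
def ev (c : ℕ → Set ℕ) (b : Bool) : Set ℕ := ⋃ k ∈ par b, c k

/-- The three sides of the splitting given by the sequence `c`. -/
def side (c : ℕ → Set ℕ) : Option Bool → Set ℕ
  | none => (ev c false ∪ ev c true)ᶜ
  | some b => ev c b

section

variable {C : BooleanSubalgebra (Set ℕ)} {F : Set (Set ℕ)} {c : ℕ → Set ℕ}

theorem ev_disj (h : Cv C F c) : Disjoint (ev c false) (ev c true) := by
  rw [ev, ev, Set.disjoint_iUnion₂_left]
  intro i hi
  rw [Set.disjoint_iUnion₂_right]
  intro j hj
  refine h.disj i j fun e => ?_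
  rw [par, mem_ofPred_eq] at hi hj
  rw [e, hj] at hi
  simp at hi

theorem side_disj (h : Cv C F c) (i j : Option Bool) (hij : i ≠ j) :
    Disjoint (side c i) (side c j) := by
  have h1 := ev_disj h
  have h2 : ∀ b, Disjoint (side c none) (ev c b) := by
    intro b
    rw [side, disjoint_comm, ← subset_compl_iff_disjoint_right, compl_compl]
    cases b
    · exact subset_union_left
    · exact subset_union_right
  match i, j with
  | none, none => exact absurd rfl hij
  | none, some b => exact h2 b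
  | some b, none => exact (h2 b).symm
  | some true, some true => exact absurd rfl hij
  | some false, some false => exact absurd rfl hij
  | some false, some true => exact h1
  | some true, some false => exact h1.symm

/-- An element which contains almost all `c k`. -/
theorem ev_diff_mem {D : BooleanSubalgebra (Set ℕ)} (hc : ∀ k, c k ∈ D) {b : Set ℕ} (hb : b ∈ D)
    (h : ∃ N, ∀ k ≥ N, c k ⊆ b) (i : Bool) : ev c i \ b ∈ D := by
  classical
  obtain ⟨N, hN⟩ := h
  have : ev c i \ b = ⋃ k ∈ (Finset.range N).filter (· ∈ par i), (c k \ b) := by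
    ext x
    simp only [ev, mem_sdiff, mem_iUnion, Finset.mem_filter, Finset.mem_range]
    constructor
    · rintro ⟨⟨k, hk, hx⟩, hxb⟩
      refine ⟨k, ⟨?_, hk⟩, hx, hxb⟩
      by_contra hkN
      exact hxb (hN k (not_lt.1 hkN) hx)
    · rintro ⟨k, ⟨_, hk⟩, hx, hxb⟩
      exact ⟨⟨k, hk, hx⟩, hxb⟩
  rw [this]
  exact biUnion_mem' _ _ fun k _ => diff_mem' (hc k) hb

theorem ev_union_mem {D : BooleanSubalgebra (Set ℕ)} (hc : ∀ k, c k ∈ D) {b : Set ℕ} (hb : b ∈ D)
    (h : ∃ N, ∀ k ≥ N, c k ⊆ b) (i : Bool) : ev c i ∪ b ∈ D := by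
  rw [← sdiff_union_self]
  exact union_mem' (ev_diff_mem hc hb h i) hb

/-- An element of `C` outside the filter meets the sides in elements of `C`. -/
theorem inter_side_mem (h : Cv C F c) {a : Set ℕ} (ha : a ∈ C) (ha' : aᶜ ∈ F) (i : Option Bool) :
    a ∩ side c i ∈ C := by
  have h1 : ∀ b, a ∩ ev c b ∈ C := by
    intro b
    have h2 := ev_diff_mem h.mem (compl_mem'' ha) (h.conv _ ha') b
    rwa [sdiff_eq, compl_compl, inter_comm] at h2
  match i with
  | some b => exact h1 b
  | none =>
    have : a ∩ side c none = a \ ((a ∩ ev c false) ∪ (a ∩ ev c true)) := by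
      rw [side, ← inter_union_distrib_left, sdiff_self_inter, sdiff_eq]
    rw [this]
    exact diff_mem' ha (union_mem' (h1 _) (h1 _))

/-- One of the three sides is unbounded. -/
theorem U_step {r : Set (Set ℕ)} {m : ℕ → Set ℕ → ℝ} (hr : Ult C r) (hrF : r ⊆ F)
    (hm : ∀ n, AddOn C (m n)) (h : Cv C F c) (hU : U C r F m) :
    ∃ i, U C r (insert (side c i) F) m := by
  classical
  by_contra hcon
  push Not at hcon
  have h1 : ∀ i : Option Bool, ∃ (G : Finset (Set ℕ)) (M : ℝ), (G : Set (Set ℕ)) ⊆ F ∧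
      ∀ n, ∀ a ∈ C, a ∉ r → (∀ b ∈ G, a ⊆ b) → a ⊆ side c i → |m n a| < M := by
    intro i
    have h2 := hcon i
    unfold U at h2
    push Not at h2
    obtain ⟨G, hG, M, hM⟩ := h2
    refine ⟨G.erase (side c i), M, fun s hs => ?_, fun n a ha har hab has => hM n a ha har ?_⟩
    · rw [Finset.mem_coe, Finset.mem_erase] at hs
      exact (hG hs.2).resolve_left hs.1
    · intro b hb
      by_cases hbs : b = side c i
      · rw [hbs]; exact has
      · exact hab b (Finset.mem_erase.2 ⟨hbs, hb⟩)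
  choose G M hG hM using h1
  obtain ⟨n, a, ha, har, haG, haM⟩ := hU (G none ∪ (G (some false) ∪ G (some true))) (by
    intro s hs
    rw [Finset.mem_coe, Finset.mem_union, Finset.mem_union] at hs
    rcases hs with hs | hs | hs
    · exact hG _ hs
    · exact hG _ hs
    · exact hG _ hs) (M none + (M (some false) + M (some true)))
  have hac : aᶜ ∈ F := hrF ((hr.compl_iff ha).2 har)
  have hin := fun i => inter_side_mem h ha hac i
  have hnr : ∀ i, a ∩ side c i ∉ r := fun i hi => har (hr.up hi ha inter_subset_left)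
  have e1 : a \ side c none = (a ∩ ev c false) ∪ (a ∩ ev c true) := by
    rw [side, sdiff_eq, compl_compl, inter_union_distrib_left]
  have h3 : m n a = m n (a ∩ side c none) + (m n (a ∩ side c (some false)) +
      m n (a ∩ side c (some true))) := by
    have e2 : a = (a ∩ side c none) ∪ ((a ∩ side c (some false)) ∪ (a ∩ side c (some true))) := by
      show a = (a ∩ side c none) ∪ ((a ∩ ev c false) ∪ (a ∩ ev c true))
      rw [← e1, inter_union_sdiff]
    have d1 : Disjoint (a ∩ side c none) ((a ∩ side c (some false)) ∪ (a ∩ side c (some true))) := by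
      show Disjoint (a ∩ side c none) ((a ∩ ev c false) ∪ (a ∩ ev c true))
      rw [← e1]
      exact disjoint_inf_sdiff
    have d2 : Disjoint (a ∩ side c (some false)) (a ∩ side c (some true)) :=
      (side_disj h _ _ (by simp)).mono inter_subset_right inter_subset_right
    calc m n a = m n ((a ∩ side c none) ∪ ((a ∩ side c (some false)) ∪ (a ∩ side c (some true)))) := by
          rw [← e2]
      _ = _ := by
          rw [hm n _ (hin _) _ (union_mem' (hin _) (hin _)) d1, hm n _ (hin _) _ (hin _) d2]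
  have h4 : ∀ i, (G i ⊆ G none ∪ (G (some false) ∪ G (some true))) →
      |m n (a ∩ side c i)| < M i := fun i hi =>
    hM i n _ (hin i) (hnr i) (fun b hb => inter_subset_left.trans (haG b (hi hb)))
      inter_subset_right
  have h5 := h4 none Finset.subset_union_left
  have h6 := h4 (some false) (Finset.subset_union_left.trans Finset.subset_union_right)
  have h7 := h4 (some true) (Finset.subset_union_right.trans Finset.subset_union_right)
  rw [abs_lt] at h5 h6 h7
  rw [h3] at haM
  rcases abs_cases (m n (a ∩ side c none) + (m n (a ∩ side c (some false)) +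
      m n (a ∩ side c (some true)))) with ⟨e, _⟩ | ⟨e, _⟩ <;> linarith [h5.1, h5.2, h6.1, h6.2, h7.1, h7.2]

end

open scoped Classical in
/-- A selected sequence (empty if there is none). -/
noncomputable def pick (C : BooleanSubalgebra (Set ℕ)) (F : Set (Set ℕ))
    (m : ℕ → Set ℕ → ℝ) : ℕ → Set ℕ :=
  if h : ∃ c, Cv C F c ∧ Unb m c then h.choose else fun _ => ∅

theorem pick_cv (C : BooleanSubalgebra (Set ℕ)) (F : Set (Set ℕ)) (m : ℕ → Set ℕ → ℝ) :
    Cv C F (pick C F m) := by
  unfold pick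
  split_ifs with h
  · exact h.choose_spec.1
  · exact ⟨fun _ => empty_mem', fun _ _ _ => disjoint_bot_left,
      fun _ _ => ⟨0, fun _ _ => empty_subset _⟩⟩

theorem pick_unb {C : BooleanSubalgebra (Set ℕ)} {F : Set (Set ℕ)} {m : ℕ → Set ℕ → ℝ}
    (h : ∃ c, Cv C F c ∧ Unb m c) : Unb m (pick C F m) := by
  unfold pick
  rw [dif_pos h]
  exact h.choose_spec.2

section tree

variable {Ω : Type} [LinearOrder Ω] [WellFoundedLT Ω] (C : BooleanSubalgebra (Set ℕ))
  (r : Set (Set ℕ)) (T : Ω → ℕ → Set ℕ → ℝ) (f : Ω → Option Bool)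

/-- The sequences along the branch `f`. -/
noncomputable def cc : Ω → ℕ → Set ℕ :=
  (wellFounded_lt (α := Ω)).fix fun ξ ih =>
    pick C (r ∪ {s | ∃ (ζ : Ω) (h : ζ < ξ), s = side (ih ζ h) (f ζ)}) (T ξ)

/-- The filter base along the branch `f`. -/
def FF (ξ : Ω) : Set (Set ℕ) := r ∪ {s | ∃ ζ < ξ, s = side (cc C r T f ζ) (f ζ)}

theorem cc_eq (ξ : Ω) : cc C r T f ξ = pick C (FF C r T f ξ) (T ξ) := by
  have h := WellFounded.fix_eq (wellFounded_lt (α := Ω)) (fun ξ ih =>
    pick C (r ∪ {s | ∃ (ζ : Ω) (h : ζ < ξ), s = side (ih ζ h) (f ζ)}) (T ξ)) ξ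
  have e : (FF C r T f ξ) = r ∪ {s | ∃ (ζ : Ω) (_ : ζ < ξ), s = side (cc C r T f ζ) (f ζ)} := by
    unfold FF
    simp only [exists_prop]
  rw [e]
  exact h

theorem cc_cv (ξ : Ω) : Cv C (FF C r T f ξ) (cc C r T f ξ) := by
  rw [cc_eq]
  exact pick_cv _ _ _

theorem sub_FF (ξ : Ω) : r ⊆ FF C r T f ξ := subset_union_left

theorem side_FF {ζ ξ : Ω} (h : ζ < ξ) : side (cc C r T f ζ) (f ζ) ∈ FF C r T f ξ :=
  Or.inr ⟨ζ, h, rfl⟩

theorem FF_mono {ζ ξ : Ω} (h : ζ ≤ ξ) : FF C r T f ζ ⊆ FF C r T f ξ := by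
  rintro s (hs | ⟨η, hη, rfl⟩)
  · exact Or.inl hs
  · exact side_FF C r T f (hη.trans_le h)

theorem cc_congr {f g : Ω → Option Bool} : ∀ ξ : Ω, (∀ ζ < ξ, f ζ = g ζ) →
    cc C r T f ξ = cc C r T g ξ := by
  intro ξ
  induction ξ using WellFoundedLT.induction with
  | _ ξ ih =>
    intro h
    rw [cc_eq, cc_eq]
    congr 1
    unfold FF
    congr 1
    ext s
    constructor
    · rintro ⟨ζ, hζ, rfl⟩
      exact ⟨ζ, hζ, by rw [ih ζ hζ fun η hη => h η (hη.trans hζ), h ζ hζ]⟩
    · rintro ⟨ζ, hζ, rfl⟩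
      exact ⟨ζ, hζ, by rw [ih ζ hζ fun η hη => h η (hη.trans hζ), h ζ hζ]⟩

theorem FF_congr {f g : Ω → Option Bool} {ξ : Ω} (h : ∀ ζ < ξ, f ζ = g ζ) :
    FF C r T f ξ = FF C r T g ξ := by
  unfold FF
  congr 1
  ext s
  constructor
  · rintro ⟨ζ, hζ, rfl⟩
    exact ⟨ζ, hζ, by rw [cc_congr C r T ζ fun η hη => h η (hη.trans hζ), h ζ hζ]⟩
  · rintro ⟨ζ, hζ, rfl⟩
    exact ⟨ζ, hζ, by rw [cc_congr C r T ζ fun η hη => h η (hη.trans hζ), h ζ hζ]⟩

theorem FF_countable (hr : r.Countable) (hc : ∀ a : Ω, (Iio a).Countable) (ξ : Ω) :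
    (FF C r T f ξ).Countable := by
  refine hr.union (((hc ξ).image fun ζ => side (cc C r T f ζ) (f ζ)).mono ?_)
  rintro s ⟨ζ, hζ, rfl⟩
  exact ⟨ζ, hζ, rfl⟩

/-- An unbounded branch. -/
theorem exists_branch {m : ℕ → Set ℕ → ℝ} (hr : Ult C r) (hm : ∀ n, AddOn C (m n))
    (hU : U C r r m) : ∃ f : Ω → Option Bool, ∀ ξ, U C r (FF C r T f ξ) m := by
  classical
  obtain ⟨f, hf⟩ := wf_rec (Ω := Ω) (α := Option Bool)
    (fun ξ f j => U C r (FF C r T f ξ) m → U C r (insert (side (cc C r T f ξ) j) (FF C r T f ξ)) m)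
    (by
      intro ξ f
      by_cases h : U C r (FF C r T f ξ) m
      · obtain ⟨j, hj⟩ := U_step hr (sub_FF C r T f ξ) hm (cc_cv C r T f ξ) h
        exact ⟨j, fun _ => hj⟩
      · exact ⟨none, fun h' => absurd h' h⟩)
    (by
      intro ξ f g j h hP
      rw [FF_congr C r T h, cc_congr C r T ξ h] at hP
      exact hP)
  refine ⟨f, fun ξ => ?_⟩
  induction ξ using WellFoundedLT.induction with
  | _ ξ ih =>
    have key : ∀ G : Finset (Set ℕ), (G : Set (Set ℕ)) ⊆ FF C r T f ξ →
        (G : Set (Set ℕ)) ⊆ r ∨ ∃ ζ < ξ, (G : Set (Set ℕ)) ⊆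
          insert (side (cc C r T f ζ) (f ζ)) (FF C r T f ζ) := by
      intro G
      induction G using Finset.induction_on with
      | empty => intro _; exact Or.inl (by simp)
      | insert s G _ ihG =>
        intro hG
        rw [Finset.coe_insert, insert_subset_iff] at hG
        rcases ihG hG.2 with h1 | ⟨ζ, hζ, h1⟩
        · rcases hG.1 with hs | ⟨ζ, hζ, rfl⟩
          · left
            rw [Finset.coe_insert, insert_subset_iff]
            exact ⟨hs, h1⟩
          · right
            refine ⟨ζ, hζ, ?_⟩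
            rw [Finset.coe_insert]
            exact insert_subset_insert (h1.trans (sub_FF C r T f ζ))
        · right
          rcases hG.1 with hs | ⟨η, hη, rfl⟩
          · refine ⟨ζ, hζ, ?_⟩
            rw [Finset.coe_insert, insert_subset_iff]
            exact ⟨Or.inr (Or.inl hs), h1⟩
          · rcases lt_trichotomy η ζ with h | h | h
            · refine ⟨ζ, hζ, ?_⟩
              rw [Finset.coe_insert, insert_subset_iff]
              exact ⟨Or.inr (side_FF C r T f h), h1⟩
            · refine ⟨ζ, hζ, ?_⟩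
              rw [Finset.coe_insert, insert_subset_iff, h]
              exact ⟨Or.inl rfl, h1⟩
            · refine ⟨η, hη, ?_⟩
              rw [Finset.coe_insert]
              refine insert_subset_insert (h1.trans ?_)
              rw [insert_subset_iff]
              exact ⟨side_FF C r T f h, FF_mono C r T f h.le⟩
    intro G hG M
    rcases key G hG with h | ⟨ζ, hζ, h⟩
    · exact hU G h M
    · exact hf ζ (ih ζ hζ) G h M

end tree

end Pool.Agent.Lib.MP_a13a54_lc
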