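import Pool.Agent.Lib.MP_a13a54_lc.Nik

/-!
# MP_a13a54_lc: all finitely additive probabilities have countable type
-/

namespace Pool.Agent.Lib.MP_a13a54_lc

open Set

/-- `lam` is a nonnegative additive function on `A`. -/
structure Pos (A : BooleanSubalgebra (Set ℕ)) (lam : Set ℕ → ℝ) : Prop where
  add : AddOn A lam
  nn : ∀ a ∈ A, 0 ≤ lam a

namespace Pos

variable {A : BooleanSubalgebra (Set ℕ)} {lam : Set ℕ → ℝ} (h : Pos A lam)

include h

theorem mono {a b : Set ℕ} (ha : a ∈ A) (hb : b ∈ A) (hab : a ⊆ b) : lam a ≤ lam b := by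
  rw [h.add.split hb ha, inter_eq_right.2 hab]
  linarith [h.nn _ (diff_mem' hb ha)]

theorem union_le {a b : Set ℕ} (ha : a ∈ A) (hb : b ∈ A) : lam (a ∪ b) ≤ lam a + lam b := by
  rw [h.add.split (union_mem' ha hb) ha, inter_eq_right.2 subset_union_left]
  have : (a ∪ b) \ a ⊆ b := by
    rw [sdiff_subset_iff]
  linarith [h.mono (diff_mem' (union_mem' ha hb) ha) hb this]

/-- **Lemma L.** A tree of splittings with both parts of mass at least `ε`. -/
theorem lemL {ι Ω : Type*} [LinearOrder Ω] (x : ι → Set ℕ) (φ : ι → Set (Set ℕ)) (lev : ι → Ω)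
    (ε : ℝ) : ∀ (n : ℕ) (S : Finset ι), S.card = n →
      (∀ i ∈ S, x i ∈ A) → (∀ i ∈ S, ∀ a ∈ φ i, ∀ b ∈ φ i, a ∩ b ∈ φ i) →
      (∀ i ∈ S, ∀ j ∈ S, i ≠ j → lev i ≤ lev j → x i ∈ φ j ∨ (x i)ᶜ ∈ φ j) →
      (∀ i ∈ S, ∀ e ∈ φ i, ε ≤ lam (e ∩ x i) ∧ ε ≤ lam (e \ x i)) →
      ∀ e ∈ A, (∀ i ∈ S, e ∈ φ i) → ε ≤ lam e → ((n : ℝ) + 1) * ε ≤ lam e := by
  classical
  intro n
  induction n using Nat.strong_induction_on with
  | _ n ih =>
    intro S hn hx hφ hdec hsp e he heφ hε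
    rcases S.eq_empty_or_nonempty with hS | hS
    · rw [hS, Finset.card_empty] at hn
      rw [← hn]
      simpa using hε
    · obtain ⟨i0, hi0, hmin⟩ := S.exists_min_image lev hS
      set S' := S.erase i0 with hS'
      have hcard : S'.card + 1 = n := by
        rw [← hn, hS', Finset.card_erase_add_one hi0]
      set S1 := S'.filter fun j => x i0 ∈ φ j with hS1
      set S2 := S'.filter fun j => ¬ x i0 ∈ φ j with hS2
      have hc : S1.card + S2.card = S'.card := Finset.card_filter_add_card_filter_not _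
      have h1 : ∀ j ∈ S1, j ∈ S := fun j hj => Finset.mem_of_mem_erase (Finset.mem_filter.1 hj).1
      have h2 : ∀ j ∈ S2, j ∈ S := fun j hj => Finset.mem_of_mem_erase (Finset.mem_filter.1 hj).1
      have h2' : ∀ j ∈ S2, (x i0)ᶜ ∈ φ j := fun j hj =>
        (hdec i0 hi0 j (h2 j hj) (Finset.ne_of_mem_erase (Finset.mem_filter.1 hj).1).symm
          (hmin j (h2 j hj))).resolve_left (Finset.mem_filter.1 hj).2
      have hs := hsp i0 hi0 e (heφ i0 hi0)
      have k1 := ih S1.card (by omega) S1 rfl (fun i hi => hx i (h1 i hi))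
        (fun i hi => hφ i (h1 i hi)) (fun i hi j hj => hdec i (h1 i hi) j (h1 j hj))
        (fun i hi => hsp i (h1 i hi)) (e ∩ x i0) (inter_mem' he (hx i0 hi0))
        (fun i hi => hφ i (h1 i hi) _ (heφ i (h1 i hi)) _ (Finset.mem_filter.1 hi).2) hs.1
      have k2 := ih S2.card (by omega) S2 rfl (fun i hi => hx i (h2 i hi))
        (fun i hi => hφ i (h2 i hi)) (fun i hi j hj => hdec i (h2 i hi) j (h2 j hj))
        (fun i hi => hsp i (h2 i hi)) (e \ x i0) (diff_mem' he (hx i0 hi0))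
        (fun i hi => by
          rw [sdiff_eq]
          exact hφ i (h2 i hi) _ (heφ i (h2 i hi)) _ (h2' i hi)) hs.2
      rw [h.add.split he (hx i0 hi0)]
      have e3 : (n : ℝ) = (S1.card : ℝ) + (S2.card : ℝ) + 1 := by
        rw [← hcard, ← hc]
        push_cast
        ring
      rw [e3]
      linarith

/-- The closure of a set `D`. -/
def Near (lam : Set ℕ → ℝ) (D : Set (Set ℕ)) (a : Set ℕ) : Prop :=
  ∀ ε > 0, ∃ d ∈ D, lam ((a \ d) ∪ (d \ a)) < ε

/-- The closure of a subalgebra is a subalgebra. -/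
def cl (D : BooleanSubalgebra (Set ℕ)) (hD : ∀ d ∈ D, d ∈ A) : BooleanSubalgebra (Set ℕ) where
  carrier := {a | a ∈ A ∧ Near lam (D : Set (Set ℕ)) a}
  infClosed' := by
    rintro a ⟨ha, ha'⟩ b ⟨hb, hb'⟩
    refine ⟨inter_mem' ha hb, fun ε hε => ?_⟩
    obtain ⟨d, hd, h1⟩ := ha' (ε / 2) (half_pos hε)
    obtain ⟨e, he, h2⟩ := hb' (ε / 2) (half_pos hε)
    have hdA := hD d hd
    have heA := hD e he
    refine ⟨d ∩ e, inter_mem' hd he, ?_⟩
    refine lt_of_le_of_lt (h.mono (b := ((a \ d) ∪ (d \ a)) ∪ ((b \ e) ∪ (e \ b)))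
      (union_mem' (diff_mem' (inter_mem' ha hb) (inter_mem' hdA heA))
        (diff_mem' (inter_mem' hdA heA) (inter_mem' ha hb)))
      (union_mem' (union_mem' (diff_mem' ha hdA) (diff_mem' hdA ha))
        (union_mem' (diff_mem' hb heA) (diff_mem' heA hb))) ?_) ?_
    · intro z hz
      simp only [inf_eq_inter, mem_union, mem_sdiff, mem_inter_iff] at hz ⊢
      tauto
    · refine lt_of_le_of_lt (h.union_le (union_mem' (diff_mem' ha hdA) (diff_mem' hdA ha))
        (union_mem' (diff_mem' hb heA) (diff_mem' heA hb))) ?_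
      linarith
  supClosed' := by
    rintro a ⟨ha, ha'⟩ b ⟨hb, hb'⟩
    refine ⟨union_mem' ha hb, fun ε hε => ?_⟩
    obtain ⟨d, hd, h1⟩ := ha' (ε / 2) (half_pos hε)
    obtain ⟨e, he, h2⟩ := hb' (ε / 2) (half_pos hε)
    have hdA := hD d hd
    have heA := hD e he
    refine ⟨d ∪ e, union_mem' hd he, ?_⟩
    refine lt_of_le_of_lt (h.mono (b := ((a \ d) ∪ (d \ a)) ∪ ((b \ e) ∪ (e \ b)))
      (union_mem' (diff_mem' (union_mem' ha hb) (union_mem' hdA heA))
        (diff_mem' (union_mem' hdA heA) (union_mem' ha hb)))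
      (union_mem' (union_mem' (diff_mem' ha hdA) (diff_mem' hdA ha))
        (union_mem' (diff_mem' hb heA) (diff_mem' heA hb))) ?_) ?_
    · intro z hz
      simp only [sup_eq_union, mem_union, mem_sdiff] at hz ⊢
      tauto
    · refine lt_of_le_of_lt (h.union_le (union_mem' (diff_mem' ha hdA) (diff_mem' hdA ha))
        (union_mem' (diff_mem' hb heA) (diff_mem' heA hb))) ?_
      linarith
  compl_mem' := by
    rintro a ⟨ha, ha'⟩
    refine ⟨compl_mem'' ha, fun ε hε => ?_⟩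
    obtain ⟨d, hd, h1⟩ := ha' ε hε
    refine ⟨dᶜ, compl_mem'' hd, ?_⟩
    have : (aᶜ \ dᶜ) ∪ (dᶜ \ aᶜ) = (a \ d) ∪ (d \ a) := by
      ext z
      simp only [mem_union, mem_sdiff, mem_compl_iff]
      tauto
    rw [this]
    exact h1
  bot_mem' := ⟨empty_mem', fun ε hε => ⟨∅, empty_mem', by
    simp only [bot_eq_empty, sdiff_self, union_self]
    rw [h.add.empty]
    exact hε⟩⟩

theorem mem_cl {D : BooleanSubalgebra (Set ℕ)} {hD : ∀ d ∈ D, d ∈ A} {a : Set ℕ} :
    a ∈ h.cl D hD ↔ a ∈ A ∧ Near lam (D : Set (Set ℕ)) a := Iff.rfl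

theorem sub_cl {D : BooleanSubalgebra (Set ℕ)} {hD : ∀ d ∈ D, d ∈ A} {a : Set ℕ} (ha : a ∈ D) :
    a ∈ h.cl D hD := ⟨hD a ha, fun ε hε => ⟨a, ha, by
      rw [sdiff_self, union_self]
      show lam ∅ < ε
      rw [h.add.empty]
      exact hε⟩⟩

/-- An element which is near to elements of the closure is in the closure. -/
theorem cl_cl {D : BooleanSubalgebra (Set ℕ)} {hD : ∀ d ∈ D, d ∈ A} {a : Set ℕ} (ha : a ∈ A)
    (hn : ∀ ε > 0, ∃ d ∈ h.cl D hD, lam ((a \ d) ∪ (d \ a)) < ε) : a ∈ h.cl D hD := by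
  refine ⟨ha, fun ε hε => ?_⟩
  obtain ⟨d, hd, h1⟩ := hn (ε / 2) (half_pos hε)
  obtain ⟨e, he, h2⟩ := hd.2 (ε / 2) (half_pos hε)
  have hdA := hd.1
  have heA := hD e he
  refine ⟨e, he, ?_⟩
  refine lt_of_le_of_lt (h.mono (b := ((a \ d) ∪ (d \ a)) ∪ ((d \ e) ∪ (e \ d)))
    (union_mem' (diff_mem' ha heA) (diff_mem' heA ha))
    (union_mem' (union_mem' (diff_mem' ha hdA) (diff_mem' hdA ha))
      (union_mem' (diff_mem' hdA heA) (diff_mem' heA hdA))) ?_) ?_
  · intro z hz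
    simp only [mem_union, mem_sdiff] at hz ⊢
    tauto
  · refine lt_of_le_of_lt (h.union_le (union_mem' (diff_mem' ha hdA) (diff_mem' hdA ha))
      (union_mem' (diff_mem' hdA heA) (diff_mem' heA hdA))) ?_
    linarith

/-- An element which is trivial near a filter is in the closure. -/
theorem approx {D : BooleanSubalgebra (Set ℕ)} {hD : ∀ d ∈ D, d ∈ A} {c : ℕ → Set ℕ} {i : Bool}
    (hc : ∀ k, c k ∈ h.cl D hD) (hA : ev c i ∈ A)
    (hn : ∀ ε > 0, ∃ b ∈ h.cl D hD, (∃ N, ∀ k ≥ N, c k ⊆ b) ∧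
      (lam (b ∩ ev c i) < ε ∨ lam (b \ ev c i) < ε)) : ev c i ∈ h.cl D hD := by
  refine h.cl_cl hA fun ε hε => ?_
  obtain ⟨b, hb, hconv, hlt | hlt⟩ := hn ε hε
  · refine ⟨ev c i \ b, ev_diff_mem hc hb hconv i, ?_⟩
    have : (ev c i \ (ev c i \ b)) ∪ ((ev c i \ b) \ ev c i) = b ∩ ev c i := by
      ext z
      simp only [mem_union, mem_sdiff, mem_inter_iff]
      tauto
    rw [this]
    exact hlt
  · refine ⟨ev c i ∪ b, ev_union_mem hc hb hconv i, ?_⟩
    have : (ev c i \ (ev c i ∪ b)) ∪ ((ev c i ∪ b) \ ev c i) = b \ ev c i := by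
      ext z
      simp only [mem_union, mem_sdiff]
      tauto
    rw [this]
    exact hlt

end Pos

/-- The elements of `A` above a finite intersection of elements of `F`. -/
def up (A : BooleanSubalgebra (Set ℕ)) (F : Set (Set ℕ)) : Set (Set ℕ) :=
  {b | b ∈ A ∧ ∃ G : Finset (Set ℕ), (G : Set (Set ℕ)) ⊆ F ∧ (⋂ s ∈ G, s) ⊆ b}

theorem up_inter {A : BooleanSubalgebra (Set ℕ)} {F : Set (Set ℕ)} :
    ∀ a ∈ up A F, ∀ b ∈ up A F, a ∩ b ∈ up A F := by
  classical
  rintro a ⟨ha, G, hG, h1⟩ b ⟨hb, G', hG', h2⟩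
  refine ⟨inter_mem' ha hb, G ∪ G', ?_, ?_⟩
  · rw [Finset.coe_union]
    exact union_subset hG hG'
  · refine subset_inter (Subset.trans ?_ h1) (Subset.trans ?_ h2)
    · exact biInter_subset_biInter_left fun s hs => Finset.mem_union_left _ hs
    · exact biInter_subset_biInter_left fun s hs => Finset.mem_union_right _ hs

theorem mem_up {A : BooleanSubalgebra (Set ℕ)} {F : Set (Set ℕ)} {b s : Set ℕ} (hb : b ∈ A)
    (hs : s ∈ F) (hsb : s ⊆ b) : b ∈ up A F := by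
  classical
  refine ⟨hb, {s}, by simpa using hs, ?_⟩
  simpa using hsb

theorem conv_fin {C : BooleanSubalgebra (Set ℕ)} {F : Set (Set ℕ)} {c : ℕ → Set ℕ}
    (h : Cv C F c) (G : Finset (Set ℕ)) (hG : (G : Set (Set ℕ)) ⊆ F) :
    ∃ N, ∀ k ≥ N, c k ⊆ ⋂ s ∈ G, s := by
  classical
  induction G using Finset.induction_on with
  | empty => exact ⟨0, fun k _ => by simp⟩
  | insert s G _ ih =>
    rw [Finset.coe_insert, insert_subset_iff] at hG
    obtain ⟨N, hN⟩ := h.conv s hG.1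
    obtain ⟨N', hN'⟩ := ih hG.2
    refine ⟨max N N', fun k hk => ?_⟩
    rw [Finset.set_biInter_insert]
    exact subset_inter (hN k (le_trans (le_max_left _ _) hk)) (hN' k (le_trans (le_max_right _ _) hk))

end Pool.Agent.Lib.MP_a13a54_lc
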