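import Pool.Agent.Lib.MP_a13a54_lc.Typ

/-!
# MP_a13a54_lc: all finitely additive probabilities have countable type, the proof
-/

namespace Pool.Agent.Lib.MP_a13a54_lc

open Set

variable {Ω : Type} [LinearOrder Ω] [WellFoundedLT Ω]

omit [WellFoundedLT Ω] in
/-- From some stage on no ultrafilter is split. -/
theorem stepE (hc : ∀ a : Ω, (Iio a).Countable) (hu : ¬ (univ : Set Ω).Countable)
    (S : Set (Set ℕ)) (x : Ω → Set ℕ) {lam : Set ℕ → ℝ} (h : Pos (Aw S x) lam) :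
    ∃ γ₁ : Ω, ∀ γ ≥ γ₁, ∀ r, Ult (Ag S x γ) r → ∀ a ∈ Aw S x, ∀ ε > 0,
      ∃ b ∈ r, lam (b ∩ a) < ε ∨ lam (b \ a) < ε := by
  by_contra hcon
  push Not at hcon
  obtain ⟨m, hm⟩ : ∃ m : ℕ, ∀ γ₁ : Ω, ∃ γ ≥ γ₁, ∃ r, Ult (Ag S x γ) r ∧ ∃ a ∈ Aw S x, ∀ b ∈ r,
      1 / ((m : ℝ) + 1) ≤ lam (b ∩ a) ∧ 1 / ((m : ℝ) + 1) ≤ lam (b \ a) := by
    by_contra h1
    push Not at h1
    choose g hg using h1
    obtain ⟨γ', hγ'⟩ := exists_bound hc hu (range g) (countable_range g)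
    obtain ⟨γ, hγ, r, hr, a, ha, ε, hε, hab⟩ := hcon γ'
    obtain ⟨m, hm⟩ := exists_nat_one_div_lt hε
    obtain ⟨b, hb, hlt⟩ := hg m γ ((hγ' _ (mem_range_self m)).le.trans hγ) r hr a ha
    have := hab b hb
    exact absurd (hlt (hm.le.trans this.1)) (not_lt.2 (hm.le.trans this.2))
  choose G hG1 R hR a ha hab using hm
  choose st hst using fun γ => exists_stage hc hu S x (a γ) (ha γ)
  obtain ⟨γ0, _⟩ := exists_bound hc hu ∅ countable_empty
  let δ : ℕ → Ω := fun n => Nat.rec γ0 (fun _ γ => max (G γ) (st γ)) n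
  have hδ : ∀ n, δ (n + 1) = max (G (δ n)) (st (δ n)) := fun _ => rfl
  have hmono : Monotone δ := monotone_nat_of_le_succ fun n => by
    rw [hδ]
    exact (hG1 (δ n)).trans (le_max_left _ _)
  set ε : ℝ := 1 / ((m : ℝ) + 1) with hε
  have hε0 : 0 < ε := by positivity
  have key : ∀ k : ℕ, ((k : ℝ) + 1) * ε ≤ lam univ := by
    intro k
    refine h.lemL (fun i : ℕ => a (δ i)) (fun i => R (δ i)) (fun i : ℕ => i) ε k (Finset.range k)
      (Finset.card_range k) (fun i _ => ha _) (fun i _ => (hR _).inter) ?_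
      (fun i _ e he => hab _ e he) univ univ_mem' (fun i _ => (hR _).univ) ?_
    · intro i _ j _ hne hle
      refine (hR (δ j)).dec _ (Ag_mono S x ?_ _ (hst (δ i)))
      have h1 : st (δ i) ≤ δ (i + 1) := by
        rw [hδ]
        exact le_max_right _ _
      exact h1.trans ((hmono (Nat.succ_le_of_lt (lt_of_le_of_ne hle hne))).trans (hG1 _))
    · exact (hab γ0 univ (hR γ0).univ).1.trans (h.mono (inter_mem' univ_mem' (ha _)) univ_mem'
        inter_subset_left)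
  obtain ⟨k, hk⟩ := exists_nat_gt (lam univ / ε)
  have := key k
  rw [div_lt_iff₀ hε0] at hk
  nlinarith

section

variable {A C : BooleanSubalgebra (Set ℕ)}

/-- A splitting element is decided by a filter which contains a set disjoint from a set in its
own filter. -/
theorem decided_aux {F F' r' : Set (Set ℕ)} {c : ℕ → Set ℕ} (hcv : Cv C F c) (hr' : Ult C r')
    (hsub : r' ⊆ F') {s s' : Set ℕ} (hs' : s' ∈ F) (hs : s ∈ F') (hd : Disjoint s s') (b : Bool)
    (hA : ev c b ∈ A) : ev c b ∈ up A F' ∨ (ev c b)ᶜ ∈ up A F' := by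
  classical
  obtain ⟨N, hN⟩ := hcv.conv s' hs'
  set w := ⋃ k ∈ (Finset.range N).filter (· ∈ par b), c k with hw
  have hwC : w ∈ C := biUnion_mem' _ _ fun k _ => hcv.mem k
  rcases hr'.dec w hwC with h1 | h1
  · left
    refine mem_up hA (hsub h1) ?_
    exact iUnion₂_subset fun k hk =>
      subset_biUnion_of_mem (u := fun k => c k) (Finset.mem_filter.1 hk).2
  · right
    refine ⟨compl_mem'' hA, {s, wᶜ}, ?_, ?_⟩
    · intro z hz
      rw [Finset.mem_coe, Finset.mem_insert, Finset.mem_singleton] at hz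
      rcases hz with rfl | rfl
      · exact hs
      · exact hsub h1
    · rw [Finset.set_biInter_insert, Finset.set_biInter_singleton]
      rintro z ⟨hz1, hz2⟩ hz3
      obtain ⟨k, hk, hzk⟩ := mem_iUnion₂.1 hz3
      by_cases hkN : k < N
      · exact hz2 (mem_iUnion₂.2 ⟨k, Finset.mem_filter.2 ⟨Finset.mem_range.2 hkN, hk⟩, hzk⟩)
      · exact (disjoint_left.1 hd) hz1 (hN k (not_lt.1 hkN) hzk)

/-- A splitting element is decided by the filters of other nodes of larger level. -/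
theorem decided (T : Ω → ℕ → Set ℕ → ℝ) {r r' : Set (Set ℕ)} (hr : Ult C r) (hr' : Ult C r')
    (f f' : Ω → Option Bool) {ξ ξ' : Ω} (hle : ξ ≤ ξ') (b : Bool)
    (hne : ev (cc C r T f ξ) b ≠ ev (cc C r' T f' ξ') b) (hA : ev (cc C r T f ξ) b ∈ A) :
    ev (cc C r T f ξ) b ∈ up A (FF C r' T f' ξ') ∨
      (ev (cc C r T f ξ) b)ᶜ ∈ up A (FF C r' T f' ξ') := by
  by_cases hrr : r = r'
  · subst hrr
    by_cases hff : ∀ ζ < ξ, f ζ = f' ζ
    · have e := cc_congr C r T ξ hff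
      have hlt : ξ < ξ' := by
        refine lt_of_le_of_ne hle fun h => hne ?_
        rw [← h, e]
      have hs := side_FF C r T f' hlt
      rw [e] at hA ⊢
      by_cases hb : f' ξ = some b
      · left
        rw [hb] at hs
        exact mem_up hA hs Subset.rfl
      · right
        refine mem_up (compl_mem'' hA) hs ?_
        rw [subset_compl_iff_disjoint_right]
        exact side_disj (cc_cv C r T f' ξ) (f' ξ) (some b) hb
    · push Not at hff
      obtain ⟨ζ0, hζ0⟩ := hff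
      obtain ⟨ζ, ⟨hζ1, hζ2⟩, hmin⟩ := (wellFounded_lt (α := Ω)).has_min
        {ζ | ζ < ξ ∧ f ζ ≠ f' ζ} ⟨ζ0, hζ0⟩
      have heq : ∀ η < ζ, f η = f' η := by
        intro η hη
        by_contra h1
        exact hmin η ⟨hη.trans hζ1, h1⟩ hη
      have e := cc_congr C r T ζ heq
      refine decided_aux (cc_cv C r T f ξ) hr' (sub_FF C r T f' ξ') (side_FF C r T f hζ1)
        (side_FF C r T f' (hζ1.trans_le hle)) ?_ b hA
      rw [e]
      exact side_disj (cc_cv C r T f' ζ) _ _ (Ne.symm hζ2)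
  · obtain ⟨b0, hb0, hb0'⟩ : ∃ b0 ∈ r, b0 ∉ r' := by
      by_contra h1
      push Not at h1
      refine hrr (Subset.antisymm h1 fun a ha => ?_)
      rcases hr.dec a (hr'.sub a ha) with h2 | h2
      · exact h2
      · have h3 := hr'.inter _ ha _ (h1 _ h2)
        rw [inter_compl_self] at h3
        exact absurd h3 hr'.ne
    exact decided_aux (cc_cv C r T f ξ) hr' (sub_FF C r' T f' ξ') (sub_FF C r T f ξ hb0)
      (sub_FF C r' T f' ξ' ((hr'.compl_iff (hr.sub _ hb0)).2 hb0'))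
      (disjoint_compl_left) b hA

/-- The splitting elements whose filter is essentially split. -/
def Ess (A C : BooleanSubalgebra (Set ℕ)) (T : Ω → ℕ → Set ℕ → ℝ) (lam : Set ℕ → ℝ) :
    Set (Set ℕ) :=
  {y | ∃ r, Ult C r ∧ ∃ (f : Ω → Option Bool) (ξ : Ω) (b : Bool), y = ev (cc C r T f ξ) b ∧
    y ∈ A ∧ ∃ ε > 0, ∀ e ∈ up A (FF C r T f ξ), ε ≤ lam (e ∩ y) ∧ ε ≤ lam (e \ y)}

theorem Ess_countable {lam : Set ℕ → ℝ} (h : Pos A lam) (T : Ω → ℕ → Set ℕ → ℝ) :
    (Ess A C T lam).Countable := by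
  classical
  let X : Bool → ℕ → Set (Set ℕ) := fun b m =>
    {y | ∃ r, Ult C r ∧ ∃ (f : Ω → Option Bool) (ξ : Ω), y = ev (cc C r T f ξ) b ∧ y ∈ A ∧
      ∀ e ∈ up A (FF C r T f ξ), 1 / ((m : ℝ) + 1) ≤ lam (e ∩ y) ∧ 1 / ((m : ℝ) + 1) ≤ lam (e \ y)}
  have hX : Ess A C T lam ⊆ ⋃ b, ⋃ m, X b m := by
    rintro y ⟨r, hr, f, ξ, b, hy, hyA, ε, hε, he⟩
    obtain ⟨m, hm⟩ := exists_nat_one_div_lt hε
    exact mem_iUnion.2 ⟨b, mem_iUnion.2 ⟨m, r, hr, f, ξ, hy, hyA, fun e he' =>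
      ⟨hm.le.trans (he e he').1, hm.le.trans (he e he').2⟩⟩⟩
  refine Set.Countable.mono hX (countable_iUnion fun b => countable_iUnion fun m => ?_)
  refine Set.Finite.countable ?_
  by_contra hinf
  set ε : ℝ := 1 / ((m : ℝ) + 1) with hε
  have hε0 : 0 < ε := by positivity
  obtain ⟨k, hk⟩ := exists_nat_gt (lam univ / ε)
  obtain ⟨s, hs, hcard⟩ := (Set.not_finite.1 hinf).exists_subset_card_eq (k + 1)
  have hne : s.Nonempty := by
    rw [← Finset.card_pos, hcard]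
    exact Nat.succ_pos _
  obtain ⟨y0, hy0⟩ := hne
  have hΩ : Nonempty Ω := by
    obtain ⟨_, _, _, ξ, _⟩ := hs hy0
    exact ⟨ξ⟩
  choose! r hr f ξ hy hyA he using fun y (hy : y ∈ s) => hs hy
  have huniv : ∀ F : Set (Set ℕ), (univ : Set ℕ) ∈ up A F := fun F =>
    ⟨univ_mem', ∅, by simp, subset_univ _⟩
  have key := h.lemL (fun y : Set ℕ => y) (fun y => up A (FF C (r y) T (f y) (ξ y))) ξ ε (k + 1) s
    hcard hyA (fun y _ => up_inter) (fun y hys z hzs hyz hle => by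
      have h1 := decided (A := A) T (hr y hys) (hr z hzs) (f y) (f z) hle b
        (by rw [← hy y hys, ← hy z hzs]; exact hyz) (by rw [← hy y hys]; exact hyA y hys)
      rw [← hy y hys] at h1
      exact h1)
    (fun y hys e he' => he y hys e he') univ univ_mem' (fun y _ => huniv _)
    ((he y0 hy0 univ (huniv _)).1.trans (h.mono (inter_mem' univ_mem' (hyA _ hy0)) univ_mem'
      inter_subset_left))
  rw [div_lt_iff₀ hε0] at hk
  push_cast at key
  nlinarith

end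

theorem side_mem {E : BooleanSubalgebra (Set ℕ)} {c : ℕ → Set ℕ} (h : ∀ b, ev c b ∈ E)
    (i : Option Bool) : side c i ∈ E := by
  match i with
  | none => exact compl_mem'' (union_mem' (h _) (h _))
  | some b => exact h b

/-- **Countable type.** -/
theorem typ {S : Set (Set ℕ)} (hS : S.Countable) (hc : ∀ a : Ω, (Iio a).Countable)
    (hu : ¬ (univ : Set Ω).Countable) (x : Ω → Set ℕ) (τ : Ω → ℕ → ℕ → ℝ)
    (hG : ∀ γ, ∀ y ∈ GG τ (Ag S x γ), y ∈ Aw S x)
    (hx : ∀ α, x α = ∅ ∨ ∃ γ ≤ α, x α ∈ GG τ (Ag S x γ))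
    {lam : Set ℕ → ℝ} (h : Pos (Aw S x) lam) :
    ∃ D : Set (Set ℕ), D.Countable ∧ (∀ d ∈ D, d ∈ Aw S x) ∧ ∀ a ∈ Aw S x, Pos.Near lam D a := by
  obtain ⟨γ₁, hE⟩ := stepE hc hu S x h
  let X : Ω → Set (Set ℕ) := fun γ => Ess (Aw S x) (Ag S x γ) (tsk τ (Ag S x γ)) lam
  set D0 : Set (Set ℕ) := (Ag S x γ₁ : Set (Set ℕ)) ∪ ⋃ γ ∈ Iio γ₁, X γ with hD0
  have hD0c : D0.Countable := (Ag_countable hS hc x γ₁).union
    ((hc γ₁).biUnion fun γ _ => Ess_countable h _)
  have hDA : ∀ d ∈ alg D0, d ∈ Aw S x := by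
    refine alg_le fun d hd => ?_
    rcases hd with hd | hd
    · exact Ag_le S x γ₁ d hd
    · obtain ⟨γ, _, hd'⟩ := mem_iUnion₂.1 hd
      obtain ⟨_, _, _, _, _, _, hdA, _⟩ := hd'
      exact hdA
  set E := h.cl (alg D0) hDA with hEdef
  have hγ₁E : ∀ a ∈ Ag S x γ₁, a ∈ E := fun a ha => h.sub_cl (subset_alg D0 (Or.inl ha))
  -- trees over small stages
  have T1 : ∀ γ < γ₁, ∀ r, Ult (Ag S x γ) r → ∀ (f : Ω → Option Bool) (ξ : Ω) (b : Bool),
      ev (cc (Ag S x γ) r (tsk τ (Ag S x γ)) f ξ) b ∈ E := by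
    intro γ hγ r hr f ξ
    induction ξ using WellFoundedLT.induction with
    | _ ξ ih =>
      intro b
      set c := cc (Ag S x γ) r (tsk τ (Ag S x γ)) f ξ with hcdef
      have hcv : Cv (Ag S x γ) (FF (Ag S x γ) r (tsk τ (Ag S x γ)) f ξ) c := cc_cv _ _ _ _ _
      have hyA : ev c b ∈ Aw S x := hG γ _ ⟨r, hr, f, ξ, b, rfl⟩
      by_cases hy : ev c b ∈ X γ
      · exact h.sub_cl (subset_alg D0 (Or.inr (mem_biUnion hγ hy)))
      · have hCE : ∀ a ∈ Ag S x γ, a ∈ E := fun a ha => hγ₁E a (Ag_mono S x hγ.le a ha)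
        refine h.approx (fun k => hCE _ (hcv.mem k)) hyA fun ε hε => ?_
        have h1 : ∃ e ∈ up (Aw S x) (FF (Ag S x γ) r (tsk τ (Ag S x γ)) f ξ),
            lam (e ∩ ev c b) < ε ∨ lam (e \ ev c b) < ε := by
          by_contra h2
          push Not at h2
          exact hy ⟨r, hr, f, ξ, b, rfl, hyA, ε, hε, h2⟩
        obtain ⟨e, ⟨heA, G, hGF, hGe⟩, hlt⟩ := h1
        have hGE : (⋂ s ∈ G, s) ∈ E := by
          refine biInter_mem' G (fun s => s) fun s hs => ?_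
          rcases hGF hs with h2 | ⟨ζ, hζ, rfl⟩
          · exact hCE s (hr.sub s h2)
          · exact side_mem (fun b => ih ζ hζ b) _
        have hGA : (⋂ s ∈ G, s) ∈ Aw S x := hGE.1
        refine ⟨⋂ s ∈ G, s, hGE, conv_fin hcv G hGF, ?_⟩
        rcases hlt with hlt | hlt
        · left
          exact lt_of_le_of_lt (h.mono (inter_mem' hGA hyA) (inter_mem' heA hyA)
            (inter_subset_inter_left _ hGe)) hlt
        · right
          exact lt_of_le_of_lt (h.mono (diff_mem' hGA hyA) (diff_mem' heA hyA)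
            (sdiff_subset_sdiff_left hGe)) hlt
  -- all generators
  have T2 : ∀ α, x α ∈ E := by
    intro α
    induction α using WellFoundedLT.induction with
    | _ α ih =>
      rcases hx α with h1 | ⟨γ, hγ, r, hr, f, ξ, b, hy⟩
      · rw [h1]
        exact empty_mem'
      · rcases lt_or_ge γ γ₁ with h2 | h2
        · rw [hy]
          exact T1 γ h2 r hr f ξ b
        · have hyA : ev (cc (Ag S x γ) r (tsk τ (Ag S x γ)) f ξ) b ∈ Aw S x :=
            hG γ _ ⟨r, hr, f, ξ, b, rfl⟩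
          have hcv := cc_cv (Ag S x γ) r (tsk τ (Ag S x γ)) f ξ
          have hCE : ∀ a ∈ Ag S x γ, a ∈ E := by
            refine alg_le fun a ha => ?_
            rcases ha with ha | ⟨β, hβ, rfl⟩
            · exact hγ₁E a (subset_alg _ (Or.inl ha))
            · exact ih β (lt_of_lt_of_le hβ hγ)
          rw [hy]
          refine h.approx (fun k => hCE _ (hcv.mem k)) hyA fun ε hε => ?_
          obtain ⟨b', hb', hlt⟩ := hE γ h2 r hr _ hyA ε hε
          exact ⟨b', hCE _ (hr.sub _ hb'), hcv.conv _ (sub_FF _ _ _ _ _ hb'), hlt⟩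
  refine ⟨(alg D0 : Set (Set ℕ)), alg_countable hD0c, hDA, fun a ha => ?_⟩
  have : a ∈ E := by
    revert a
    refine alg_le fun a ha => ?_
    rcases ha with ha | ⟨β, rfl⟩
    · exact hγ₁E a (subset_alg _ (Or.inl ha))
    · exact T2 β
  exact this.2

end Pool.Agent.Lib.MP_a13a54_lc
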